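import Mathlib

/-!
Algebra for the identities `f(m1) = Q(g) F(x)`, `f(m2) = Q(g) F(y)`, `a f(m3) = F(x) F(y)`.
-/

set_option autoImplicit false

namespace Pool.Agent.H359R6

/-- the form `g1 ^ 2 + b g1 g2 + a c g2 ^ 2` -/
def Qf (a b c g1 g2 : ℤ) : ℤ := g1 ^ 2 + b * g1 * g2 + a * c * g2 ^ 2

/-- the form `a x1 ^ 2 + b x1 x2 + c x2 ^ 2` -/
def Ff (a b c x1 x2 : ℤ) : ℤ := a * x1 ^ 2 + b * x1 * x2 + c * x2 ^ 2

/-- the polynomial -/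
def fv (a b c m : ℤ) : ℤ := a * m ^ 2 + b * m + c

variable {a b c : ℤ}

/-- first index -/
def mA (b c g1 g2 x1 x2 : ℤ) : ℤ := x1 * g1 + b * x1 * g2 + c * x2 * g2

lemma id1 {g1 g2 x1 x2 : ℤ} (h : x2 * g1 - a * x1 * g2 = 1) :
    Qf a b c g1 g2 * Ff a b c x1 x2 = fv a b c (mA b c g1 g2 x1 x2) := by
  have key : Qf a b c g1 g2 * Ff a b c x1 x2 = a * (mA b c g1 g2 x1 x2) ^ 2
      + b * (mA b c g1 g2 x1 x2) * (x2 * g1 - a * x1 * g2)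
      + c * (x2 * g1 - a * x1 * g2) ^ 2 := by
    unfold Qf Ff mA; ring
  rw [key, h]; unfold fv; ring

lemma id3 {x1 x2 y1 y2 m : ℤ} (h : x1 * y2 - x2 * y1 = 1)
    (hm : a * m = a * x1 * y1 + b * x2 * y1 + c * x2 * y2) :
    Ff a b c x1 x2 * Ff a b c y1 y2 = a * fv a b c m := by
  have key : Ff a b c x1 x2 * Ff a b c y1 y2
      = (a * x1 * y1 + b * x2 * y1 + c * x2 * y2) ^ 2
        + b * (a * x1 * y1 + b * x2 * y1 + c * x2 * y2) * (x1 * y2 - x2 * y1)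
        + a * c * (x1 * y2 - x2 * y1) ^ 2 := by
    unfold Ff; ring
  rw [key, h, ← hm]; unfold fv; ring

/-- linear relations for the first index -/
lemma rel1 {g1 g2 x1 x2 : ℤ} (h : x2 * g1 - a * x1 * g2 = 1) :
    Qf a b c g1 g2 * x1 = g1 * mA b c g1 g2 x1 x2 - c * g2 ∧
    Qf a b c g1 g2 * x2 = g1 + (a * mA b c g1 g2 x1 x2 + b) * g2 := by
  unfold Qf mA
  constructor
  · linear_combination (-c * g2) * h
  · linear_combination (g1 + b * g2) * h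

/-- linear relations for the third index -/
lemma rel3 {x1 x2 y1 y2 m : ℤ} (h : x1 * y2 - x2 * y1 = 1)
    (hm : a * m = a * x1 * y1 + b * x2 * y1 + c * x2 * y2) :
    Ff a b c x1 x2 * y1 = a * x1 * m - c * x2 ∧
    Ff a b c x1 x2 * y2 = a * x1 + (a * m + b) * x2 := by
  unfold Ff
  constructor
  · linear_combination (-x1) * hm + (-c * x2) * h
  · linear_combination (-x2) * hm + (a * x1 + b * x2) * h

/-- uniqueness of coprime vectors in a narrow cone -/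
lemma cone_unique {q u1 u2 v1 v2 : ℤ} (hu1 : 0 < u1) (hu2 : 0 ≤ u2) (hu : 3 * u2 ≤ u1)
    (hv1 : 0 < v1) (hv2 : 0 ≤ v2) (hv : 3 * v2 ≤ v1) (hqu : u1 ^ 2 ≤ 2 * q) (hqv : v1 ^ 2 ≤ 2 * q)
    (hcu : IsCoprime u1 u2) (hcv : IsCoprime v1 v2) (hd : q ∣ u1 * v2 - v1 * u2) :
    u1 = v1 ∧ u2 = v2 := by
  have hq : 0 < q := by nlinarith
  have huv : u1 * v1 ≤ 2 * q := by nlinarith [sq_nonneg (u1 - v1)]
  have h1 : 3 * (u1 * v2) ≤ u1 * v1 := by nlinarith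
  have h2 : 3 * (v1 * u2) ≤ u1 * v1 := by nlinarith
  have h3 : 0 ≤ u1 * v2 := by positivity
  have h4 : 0 ≤ v1 * u2 := by positivity
  have h0 : u1 * v2 - v1 * u2 = 0 := by
    apply Int.eq_zero_of_abs_lt_dvd hd
    rw [abs_lt]
    constructor <;> linarith
  have h5 : u1 * v2 = v1 * u2 := by linarith
  have d1 : u1 ∣ v1 := by
    have : u1 ∣ v1 * u2 := ⟨v2, h5.symm⟩
    exact hcu.dvd_of_dvd_mul_right this
  have d2 : v1 ∣ u1 := by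
    have : v1 ∣ u1 * v2 := ⟨u2, h5⟩
    exact hcv.dvd_of_dvd_mul_right this
  have h6 : u1 = v1 := le_antisymm (Int.le_of_dvd hv1 d1) (Int.le_of_dvd hu1 d2)
  refine ⟨h6, ?_⟩
  subst h6
  exact (mul_left_cancel₀ hu1.ne' h5).symm

/-- uniqueness for the first index -/
lemma uniq1 {g1 g2 x1 x2 g1' g2' x1' x2' : ℤ} (h : x2 * g1 - a * x1 * g2 = 1)
    (h' : x2' * g1' - a * x1' * g2' = 1) (hm : mA b c g1 g2 x1 x2 = mA b c g1' g2' x1' x2')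
    (hq : Qf a b c g1 g2 = Qf a b c g1' g2')
    (hu1 : 0 < g1) (hu2 : 0 ≤ g2) (hu : 3 * g2 ≤ g1) (hqu : g1 ^ 2 ≤ 2 * Qf a b c g1 g2)
    (hv1 : 0 < g1') (hv2 : 0 ≤ g2') (hv : 3 * g2' ≤ g1') (hqv : g1' ^ 2 ≤ 2 * Qf a b c g1' g2') :
    g1 = g1' ∧ g2 = g2' := by
  obtain ⟨-, e1⟩ := rel1 (b := b) (c := c) h
  obtain ⟨-, e2⟩ := rel1 (b := b) (c := c) h'
  apply cone_unique (q := Qf a b c g1 g2) hu1 hu2 hu hv1 hv2 hv hqu (by rw [hq]; exact hqv)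
  · exact ⟨x2, -(a * x1), by linear_combination h⟩
  · exact ⟨x2', -(a * x1'), by linear_combination h'⟩
  · refine ⟨x2 * g2' - x2' * g2, ?_⟩
    rw [← hm, ← hq] at e2
    linear_combination (-g2') * e1 + g2 * e2

/-- uniqueness for the third index -/
lemma uniq3 {x1 x2 y1 y2 x1' x2' y1' y2' m : ℤ} (h : x1 * y2 - x2 * y1 = 1)
    (h' : x1' * y2' - x2' * y1' = 1)
    (hm : a * m = a * x1 * y1 + b * x2 * y1 + c * x2 * y2)
    (hm' : a * m = a * x1' * y1' + b * x2' * y1' + c * x2' * y2')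
    (hq : Ff a b c x1 x2 = Ff a b c x1' x2') (hco : IsCoprime (Ff a b c x1 x2) a)
    (hu1 : 0 < x1) (hu2 : 0 ≤ x2) (hu : 3 * x2 ≤ x1) (hqu : x1 ^ 2 ≤ 2 * Ff a b c x1 x2)
    (hv1 : 0 < x1') (hv2 : 0 ≤ x2') (hv : 3 * x2' ≤ x1') (hqv : x1' ^ 2 ≤ 2 * Ff a b c x1' x2') :
    (x1 = x1' ∧ x2 = x2') ∧ (y1 = y1' ∧ y2 = y2') := by
  obtain ⟨e3, e1⟩ := rel3 h hm
  obtain ⟨e4, e2⟩ := rel3 h' hm'
  have h0 : x1 = x1' ∧ x2 = x2' := by
    apply cone_unique (q := Ff a b c x1 x2) hu1 hu2 hu hv1 hv2 hv hqu (by rw [hq]; exact hqv)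
    · exact ⟨y2, -y1, by linear_combination h⟩
    · exact ⟨y2', -y1', by linear_combination h'⟩
    · have : Ff a b c x1 x2 ∣ a * (x1 * x2' - x1' * x2) := by
        refine ⟨y2 * x2' - y2' * x2, ?_⟩
        rw [← hq] at e2
        linear_combination (-x2') * e1 + x2 * e2
      exact hco.dvd_of_dvd_mul_left this
  refine ⟨h0, ?_⟩
  obtain ⟨rfl, rfl⟩ := h0
  have hF : Ff a b c x1 x2 ≠ 0 := by
    intro h0
    rw [h0] at hqu
    nlinarith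
  exact ⟨mul_left_cancel₀ hF (e3.trans e4.symm), mul_left_cancel₀ hF (e1.trans e2.symm)⟩

/-- size of `Q` in the cone -/
lemma Q_cone {κ g1 g2 : ℤ} (hg1 : 0 < g1) (hg2 : 0 ≤ g2) (hκ : 2 * (|b| + |a * c|) ≤ κ)
    (hκ1 : 1 ≤ κ) (h : κ * g2 ≤ g1) : g1 ^ 2 ≤ 2 * Qf a b c g1 g2 := by
  unfold Qf
  have hg21 : g2 ≤ g1 := by nlinarith
  have h1 : -(|b| * (g1 * g2)) ≤ b * g1 * g2 := by
    have h0 : 0 ≤ g1 * g2 := by positivity
    have := neg_abs_le b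
    nlinarith
  have h2 : -(|a * c| * (g1 * g2)) ≤ a * c * g2 ^ 2 := by
    have h0 : g2 ^ 2 ≤ g1 * g2 := by nlinarith
    have h3 : 0 ≤ g2 ^ 2 := sq_nonneg _
    have h4 := neg_abs_le (a * c)
    have h5 := abs_nonneg (a * c)
    nlinarith
  have h3 : 2 * (|b| + |a * c|) * (g1 * g2) ≤ κ * (g1 * g2) :=
    mul_le_mul_of_nonneg_right hκ (by positivity)
  have h4 : κ * (g1 * g2) ≤ g1 ^ 2 := by nlinarith
  nlinarith

lemma F_cone {κ x1 x2 : ℤ} (ha : 1 ≤ a) (hx1 : 0 < x1) (hx2 : 0 ≤ x2)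
    (hκ : 2 * (|b| + |c|) ≤ κ) (hκ1 : 1 ≤ κ) (h : κ * x2 ≤ x1) :
    x1 ^ 2 ≤ 2 * Ff a b c x1 x2 := by
  unfold Ff
  have hx21 : x2 ≤ x1 := by nlinarith
  have h1 : -(|b| * (x1 * x2)) ≤ b * x1 * x2 := by
    have h0 : 0 ≤ x1 * x2 := by positivity
    have := neg_abs_le b
    nlinarith
  have h2 : -(|c| * (x1 * x2)) ≤ c * x2 ^ 2 := by
    have h0 : x2 ^ 2 ≤ x1 * x2 := by nlinarith
    have h3 : 0 ≤ x2 ^ 2 := sq_nonneg _
    have h4 := neg_abs_le c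
    have h5 := abs_nonneg c
    nlinarith
  have h3 : 2 * (|b| + |c|) * (x1 * x2) ≤ κ * (x1 * x2) :=
    mul_le_mul_of_nonneg_right hκ (by positivity)
  have h4 : κ * (x1 * x2) ≤ x1 ^ 2 := by nlinarith
  have h5 : x1 ^ 2 ≤ a * x1 ^ 2 := by nlinarith [sq_nonneg x1]
  nlinarith

/-- size of the first index -/
lemma mA_cone {κ g1 g2 x1 x2 : ℤ} (hg1 : 0 < g1) (hg2 : 0 ≤ g2) (hκ : 2 * (|b| + |c|) ≤ κ)
    (h : κ * g2 ≤ g1) (hx1 : 0 < x1) (hx2 : 0 ≤ x2) (hx : x2 ≤ x1) (hg : g2 ≤ g1) :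
    0 < mA b c g1 g2 x1 x2 ∧ mA b c g1 g2 x1 x2 ≤ (1 + |b| + |c|) * (x1 * g1) := by
  unfold mA
  have hb := abs_nonneg b
  have hc := abs_nonneg c
  have h0 : 0 ≤ x1 * g2 := by positivity
  have h0' : 0 ≤ x2 * g2 := by positivity
  have h1 : |b * x1 * g2| ≤ |b| * (x1 * g2) := by
    rw [mul_assoc, abs_mul, abs_of_nonneg h0]
  have h2 : |c * x2 * g2| ≤ |c| * (x1 * g2) := by
    rw [mul_assoc, abs_mul, abs_of_nonneg h0']
    apply mul_le_mul_of_nonneg_left _ hc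
    exact mul_le_mul_of_nonneg_right hx hg2
  have h3 := abs_le.1 h1
  have h4 := abs_le.1 h2
  have h5 : 2 * (|b| + |c|) * (x1 * g2) ≤ κ * (x1 * g2) := mul_le_mul_of_nonneg_right hκ h0
  have h6 : κ * (x1 * g2) ≤ x1 * g1 := by nlinarith
  have h7 : 0 < x1 * g1 := by positivity
  have h8 : x1 * g2 ≤ x1 * g1 := mul_le_mul_of_nonneg_left hg hx1.le
  have h9 : |b| * (x1 * g2) ≤ |b| * (x1 * g1) := mul_le_mul_of_nonneg_left h8 hb
  have h10 : |c| * (x1 * g2) ≤ |c| * (x1 * g1) := mul_le_mul_of_nonneg_left h8 hc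
  constructor <;> nlinarith

/-- size of the third index -/
lemma m3_cone {κ x1 x2 y1 y2 m : ℤ} (ha : 1 ≤ a) (hx1 : 0 < x1) (hx2 : 0 ≤ x2)
    (hκ : 2 * (|b| + |c|) ≤ κ) (h : κ * x2 ≤ x1) (hx : x2 ≤ x1) (hy1 : 0 < y1) (hy2 : 0 ≤ y2)
    (hy : y2 ≤ y1) (hm : a * m = a * x1 * y1 + b * x2 * y1 + c * x2 * y2) :
    0 < m ∧ m ≤ (1 + |b| + |c|) * (x1 * y1) := by
  have hb := abs_nonneg b
  have hc := abs_nonneg c
  have h0 : 0 ≤ x2 * y1 := by positivity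
  have h0' : 0 ≤ x2 * y2 := by positivity
  have h1 : |b * x2 * y1| ≤ |b| * (x2 * y1) := by
    rw [mul_assoc, abs_mul, abs_of_nonneg h0]
  have h2 : |c * x2 * y2| ≤ |c| * (x2 * y1) := by
    rw [mul_assoc, abs_mul, abs_of_nonneg h0']
    apply mul_le_mul_of_nonneg_left _ hc
    exact mul_le_mul_of_nonneg_left hy hx2
  have h3 := abs_le.1 h1
  have h4 := abs_le.1 h2
  have h5 : 2 * (|b| + |c|) * (x2 * y1) ≤ κ * (x2 * y1) := mul_le_mul_of_nonneg_right hκ h0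
  have h6 : κ * (x2 * y1) ≤ x1 * y1 := by nlinarith
  have h7 : 0 < x1 * y1 := by positivity
  have h8 : x2 * y1 ≤ x1 * y1 := mul_le_mul_of_nonneg_right hx hy1.le
  have h9 : |b| * (x2 * y1) ≤ |b| * (x1 * y1) := mul_le_mul_of_nonneg_left h8 hb
  have h10 : |c| * (x2 * y1) ≤ |c| * (x1 * y1) := mul_le_mul_of_nonneg_left h8 hc
  have h11 : x1 * y1 ≤ a * (x1 * y1) := by nlinarith
  have hm1 : 0 < a * m := by rw [hm]; nlinarith
  have hm0 : 0 < m := by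
    by_contra hcon
    push Not at hcon
    nlinarith
  refine ⟨hm0, ?_⟩
  have hm2 : a * m ≤ a * ((1 + |b| + |c|) * (x1 * y1)) := by
    rw [hm]
    have h12 : |b| * (x1 * y1) ≤ a * (|b| * (x1 * y1)) := by
      have : 0 ≤ |b| * (x1 * y1) := by positivity
      nlinarith
    have h13 : |c| * (x1 * y1) ≤ a * (|c| * (x1 * y1)) := by
      have : 0 ≤ |c| * (x1 * y1) := by positivity
      nlinarith
    nlinarith
  exact le_of_mul_le_mul_left hm2 (by linarith)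

end Pool.Agent.H359R6
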