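import Pool.Agent.H505R2.Triple
import Pool.Agent.H359R6.Alg

/-!
For a vector `g` the one-parameter sieve for the pair `F(x)`, `F(y)`.
-/

set_option autoImplicit false

namespace Pool.Agent.H359R6

open Finset Pool.Agent.H505R2

/-- no sifting prime, not dividing `N`, divides `n` -/
def SN (I : ℕ) (N n : ℤ) : Prop := ∀ p ∈ SI I, ¬ (p : ℤ) ∣ N → ¬ (p : ℤ) ∣ n

open Classical in
theorem sift_N (I : ℕ) (hI : 1 ≤ I) (N A1 B1 C1 A2 B2 C2 : ℤ) (h1 : SN I N A1) (h2 : SN I N A2)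
    (k : ℕ) :
    (k : ℝ) * (Real.exp (-64) ^ I / 2) - 2 ^ (582 * 2 ^ I) ≤
      (((Ioc 0 k).filter (fun n : ℕ => SN I N (A1 * (n : ℤ) ^ 2 + B1 * n + C1) ∧
        SN I N (A2 * (n : ℤ) ^ 2 + B2 * n + C2))).card : ℝ) := by
  set S : Finset ℕ := (SI I).filter (fun p => ¬ (p : ℤ) ∣ N) with hSdef
  have hSm : ∀ p ∈ S, p ∈ SI I ∧ ¬ (p : ℤ) ∣ N := fun p hp => by
    rw [hSdef, mem_filter] at hp; exact hp
  set Ω : ℕ → Finset ℕ := fun p => (range p).filter (fun r : ℕ =>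
    (p : ℤ) ∣ A1 * (r : ℤ) ^ 2 + B1 * r + C1 ∨ (p : ℤ) ∣ A2 * (r : ℤ) ^ 2 + B2 * r + C2) with hΩdef
  have hΩ : ∀ p ∈ S, Ω p ⊆ range p := fun p _ => filter_subset _ _
  have hκ : ∀ p ∈ S, (Ω p).card ≤ 4 := by
    intro p hp
    obtain ⟨hp1, hp2⟩ := hSm p hp
    obtain ⟨h5, hle, hpp⟩ := mem_SI.1 hp1
    simp only [hΩdef]
    rw [filter_or]
    refine (card_union_le _ _).trans ?_
    have e1 := roots_le_two p hpp A1 B1 C1 (h1 p hp1 hp2)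
    have e2 := roots_le_two p hpp A2 B2 C2 (h2 p hp1 hp2)
    omega
  have h := sieve_lowerA (Ω := Ω) S (fun p hp => (mem_SI.1 (hSm p hp).1).2.2)
    (fun p hp => (mem_SI.1 (hSm p hp).1).1) hΩ hκ I hI
    (fun p hp => (mem_SI.1 (hSm p hp).1).2.1) k
  refine h.trans ?_
  have hsub : (Ioc 0 k).filter (fun n => ∀ p ∈ S, n % p ∉ Ω p) ⊆
      (Ioc 0 k).filter (fun n : ℕ => SN I N (A1 * (n : ℤ) ^ 2 + B1 * n + C1) ∧
        SN I N (A2 * (n : ℤ) ^ 2 + B2 * n + C2)) := by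
    intro n hn
    rw [mem_filter] at hn ⊢
    refine ⟨hn.1, ?_, ?_⟩
    · intro p hp hpN hd
      have hpS : p ∈ S := by rw [hSdef, mem_filter]; exact ⟨hp, hpN⟩
      apply hn.2 p hpS
      have hpp := (mem_SI.1 hp).2.2
      simp only [hΩdef]
      rw [mem_filter, mem_range]
      exact ⟨Nat.mod_lt _ hpp.pos, Or.inl ((quad_mod p A1 B1 C1 n).2 hd)⟩
    · intro p hp hpN hd
      have hpS : p ∈ S := by rw [hSdef, mem_filter]; exact ⟨hp, hpN⟩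
      apply hn.2 p hpS
      have hpp := (mem_SI.1 hp).2.2
      simp only [hΩdef]
      rw [mem_filter, mem_range]
      exact ⟨Nat.mod_lt _ hpp.pos, Or.inr ((quad_mod p A2 B2 C2 n).2 hd)⟩
  exact_mod_cast card_le_card hsub

/-- local data -/
structure Loc (a b c n0 d1 e1 d2 e2 : ℤ) : Prop where
  ha : 1 ≤ a
  hab : IsCoprime a b
  hd1 : 1 ≤ d1
  hd2 : 1 ≤ d2
  h1 : fv a b c (n0 + 1) = d1 * e1
  h0 : fv a b c n0 = d2 * e2
  had : a ∣ d2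
  he1 : IsCoprime e1 (6 * a * d1 * d2)
  he2 : IsCoprime e2 (6 * a * d1 * d2)

/-- the modulus -/
def N0 (a d1 d2 : ℤ) : ℤ := 6 * a * d1 * d2

variable {a b c n0 d1 e1 d2 e2 : ℤ}

lemma Loc.N0_pos (L : Loc a b c n0 d1 e1 d2 e2) : 6 ≤ N0 a d1 d2 := by
  unfold N0
  have := L.ha; have := L.hd1; have := L.hd2
  have h1 : 1 ≤ a * d1 := by nlinarith
  have h2 : 1 ≤ a * d1 * d2 := by nlinarith
  nlinarith

lemma Loc.cop (L : Loc a b c n0 d1 e1 d2 e2) : IsCoprime d1 a := by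
  have h1 : IsCoprime (fv a b c (n0 + 1)) a := by
    obtain ⟨q, hq⟩ := L.had
    obtain ⟨s, t, hst⟩ := L.hab
    have h0 := L.h0
    rw [hq] at h0
    -- fv (n0+1) = fv n0 + a (2 n0 + 1) + b
    have h2 : fv a b c (n0 + 1) = a * (q * e2 + 2 * n0 + 1) + b := by
      have h3 : fv a b c (n0 + 1) = fv a b c n0 + a * (2 * n0 + 1) + b := by unfold fv; ring
      rw [h3, h0]; ring
    refine ⟨t, s - t * (q * e2 + 2 * n0 + 1), ?_⟩
    rw [h2]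
    linear_combination hst
  rw [L.h1] at h1
  exact h1.of_mul_left_left

lemma SN_mul {I : ℕ} {N m n : ℤ} (hm : SN I N m) (hn : SN I N n) : SN I N (m * n) := by
  intro p hp hpN hd
  have hpZ : Prime (p : ℤ) := Nat.prime_iff_prime_int.1 (mem_SI.1 hp).2.2
  rcases hpZ.dvd_or_dvd hd with h | h
  · exact hm p hp hpN h
  · exact hn p hp hpN h

lemma SN_dvd {I : ℕ} {N m : ℤ} (h : m ∣ N) : SN I N m := fun _ _ hpN hd => hpN (hd.trans h)

lemma SN_of_dvd {I : ℕ} {N m n : ℤ} (h : m ∣ n) (hn : SN I N n) : SN I N m :=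
  fun p hp hpN hd => hn p hp hpN (hd.trans h)

lemma F_congr {M x1 x2 r : ℤ} (h1 : M ∣ x1 - r) (h2 : M ∣ x2 - 1) :
    M ∣ Ff a b c x1 x2 - fv a b c r := by
  obtain ⟨s, hs⟩ := h1
  obtain ⟨t, ht⟩ := h2
  refine ⟨a * s * (x1 + r) + b * (s * x2 + r * t) + c * t * (x2 + 1), ?_⟩
  unfold Ff fv
  linear_combination (a * (x1 + r) + b * x2) * hs + (b * r + c * (x2 + 1)) * ht

theorem exists_triple6 (L : Loc a b c n0 d1 e1 d2 e2) (I : ℕ) (hI : 10 ≤ I) {g1 g2 κ : ℤ}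
    (hκ : 1 ≤ κ) (hg1 : N0 a d1 d2 ^ 2 ∣ g1 - 1) (hg2 : N0 a d1 d2 ^ 2 ∣ g2) (hgp : 0 < g1)
    (hco : IsCoprime g1 g2) (hS : SN I (N0 a d1 d2) (Qf a b c g1 g2)) :
    ∃ x1 x2 m u v : ℤ, x2 * g1 - a * x1 * g2 = 1 ∧
      a * m = a * x1 * (x1 - g1) + b * x2 * (x1 - g1) + c * x2 * (x2 - a * g2) ∧
      Ff a b c x1 x2 = d1 * v ∧ Ff a b c (x1 - g1) (x2 - a * g2) = d2 * u ∧
      IsCoprime v (N0 a d1 d2) ∧ IsCoprime u (N0 a d1 d2) ∧ SN I (N0 a d1 d2) v ∧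
      SN I (N0 a d1 d2) u ∧ 2 * κ * g1 ≤ x1 - g1 ∧
      x1 ≤ (2 * κ + 3 + 2 * N0 a d1 d2 ^ 2) * 2 ^ (584 * 2 ^ I) * g1 := by
  classical
  have hN0 := L.N0_pos
  set N := N0 a d1 d2 with hNdef
  set M := N ^ 2 with hM
  have hMpos : 0 < M := by rw [hM]; positivity
  have haN : a ∣ N := ⟨6 * d1 * d2, by rw [hNdef]; unfold N0; ring⟩
  have haM : a ∣ M := haN.trans (Dvd.intro_left N (by rw [hM]; ring))
  have hNM : N ∣ M := Dvd.intro_left N (by rw [hM]; ring)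
  have ha := L.ha
  -- solve
  have hg1a : IsCoprime g1 a := by
    obtain ⟨s, hs⟩ := haM.trans hg1
    exact ⟨1, -s, by linear_combination hs⟩
  obtain ⟨r2', r1', hr⟩ : IsCoprime g1 (a * g2) := IsCoprime.mul_right hg1a hco
  -- r2' * g1 + r1' * (a * g2) = 1
  obtain ⟨w, hw⟩ : ∃ w : ℤ, w = (-r1') / g1 := ⟨_, rfl⟩
  obtain ⟨r1, hr1⟩ : ∃ r1 : ℤ, r1 = (-r1') % g1 := ⟨_, rfl⟩
  have hr1' : r1 = -r1' - g1 * w := by rw [hr1, hw, Int.emod_def]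
  have hr10 : 0 ≤ r1 := by rw [hr1]; exact Int.emod_nonneg _ hgp.ne'
  have hr1g : r1 < g1 := by rw [hr1]; exact Int.emod_lt_of_pos _ hgp
  set r2 := r2' - a * g2 * w with hr2
  have hrr : r2 * g1 - a * r1 * g2 = 1 := by
    rw [hr2, hr1']; linear_combination hr
  obtain ⟨ρ, hρ⟩ : ∃ ρ : ℤ, ρ = (n0 + 1 - r1 - (2 * κ + 1)) % M := ⟨_, rfl⟩
  have hρ0 : 0 ≤ ρ := by rw [hρ]; exact Int.emod_nonneg _ hMpos.ne'
  have hρM : ρ < M := by rw [hρ]; exact Int.emod_lt_of_pos _ hMpos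
  have hρd : M ∣ (n0 + 1 - r1 - (2 * κ + 1)) - ρ := by
    rw [hρ]; exact Int.dvd_self_sub_emod
  set k0 := 2 * κ + 1 + ρ with hk0
  set x10 := r1 + k0 * g1 with hx10
  set x20 := r2 + k0 * (a * g2) with hx20
  -- the sieve
  have hA : SN I N (M ^ 2 * (a * Qf a b c g1 g2)) := by
    apply SN_mul
    · intro p hp hpN hd
      have hpZ : Prime (p : ℤ) := Nat.prime_iff_prime_int.1 (mem_SI.1 hp).2.2
      have h1 := hpZ.dvd_of_dvd_pow hd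
      rw [hM] at h1
      exact hpN (hpZ.dvd_of_dvd_pow h1)
    · exact SN_mul (SN_dvd haN) hS
  set K : ℕ := 2 ^ (584 * 2 ^ I) with hK
  obtain ⟨B1, hB1⟩ : ∃ B1 : ℤ, B1 = M * (2 * a * x10 * g1 + b * (x10 * (a * g2) + x20 * g1)
    + 2 * c * x20 * (a * g2)) := ⟨_, rfl⟩
  obtain ⟨C1, hC1⟩ : ∃ C1 : ℤ, C1 = Ff a b c x10 x20 := ⟨_, rfl⟩
  obtain ⟨B2, hB2⟩ : ∃ B2 : ℤ, B2 = M * (2 * a * (x10 - g1) * g1 + b * ((x10 - g1) * (a * g2)
    + (x20 - a * g2) * g1) + 2 * c * (x20 - a * g2) * (a * g2)) := ⟨_, rfl⟩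
  obtain ⟨C2, hC2⟩ : ∃ C2 : ℤ, C2 = Ff a b c (x10 - g1) (x20 - a * g2) := ⟨_, rfl⟩
  have hs := sift_N I (by omega) N _ B1 C1 _ B2 C2 hA hA K
  have hpos := lt_of_lt_of_le (K_big I hI) hs
  have hne : ((Ioc 0 K).filter (fun n : ℕ =>
      SN I N (M ^ 2 * (a * Qf a b c g1 g2) * (n : ℤ) ^ 2 + B1 * n + C1) ∧
      SN I N (M ^ 2 * (a * Qf a b c g1 g2) * (n : ℤ) ^ 2 + B2 * n + C2))).Nonempty := by
    rw [← Finset.card_pos]
    exact_mod_cast hpos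
  obtain ⟨n, hn⟩ := hne
  rw [mem_filter, mem_Ioc] at hn
  obtain ⟨⟨hn0, hnK⟩, hn1, hn2⟩ := hn
  have hnK' : (n : ℤ) ≤ 2 ^ (584 * 2 ^ I) := by
    have : ((n : ℕ) : ℤ) ≤ ((2 ^ (584 * 2 ^ I) : ℕ) : ℤ) := by exact_mod_cast hnK
    push_cast at this
    exact this
  obtain ⟨R, hR⟩ : ∃ R : ℤ, R = 2 ^ (584 * 2 ^ I) := ⟨_, rfl⟩
  rw [← hR] at hnK' ⊢
  have hR1 : 1 ≤ R := by rw [hR]; exact one_le_pow₀ (by norm_num)
  clear hs hpos hK
  clear_value K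
  have hn0' : (1 : ℤ) ≤ n := by exact_mod_cast hn0
  set x1 := x10 + M * n * g1 with hx1
  set x2 := x20 + M * n * (a * g2) with hx2
  have hdet : x2 * g1 - a * x1 * g2 = 1 := by
    rw [hx1, hx2, hx10, hx20]; linear_combination hrr
  have hF1 : Ff a b c x1 x2 = M ^ 2 * (a * Qf a b c g1 g2) * (n : ℤ) ^ 2 + B1 * n + C1 := by
    rw [hB1, hC1, hx1, hx2]; unfold Ff Qf; ring
  have hF2 : Ff a b c (x1 - g1) (x2 - a * g2) = M ^ 2 * (a * Qf a b c g1 g2) * (n : ℤ) ^ 2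
      + B2 * n + C2 := by
    rw [hB2, hC2, hx1, hx2]; unfold Ff Qf; ring
  rw [← hF1] at hn1
  rw [← hF2] at hn2
  -- residues
  have hx1M : M ∣ x1 - (n0 + 1) := by
    obtain ⟨s, hs⟩ := hg1
    obtain ⟨t, ht⟩ := hρd
    refine ⟨-t + k0 * s + n * g1, ?_⟩
    rw [hx1, hx10]
    linear_combination (-1 : ℤ) * ht + k0 * hs - hk0
  have hx2M : M ∣ x2 - 1 := by
    obtain ⟨s, hs⟩ := hg1
    obtain ⟨t, ht⟩ := hg2
    refine ⟨a * x1 * t - x2 * s, ?_⟩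
    linear_combination hdet - x2 * hs + a * x1 * ht
  have hy1M : M ∣ (x1 - g1) - n0 := by
    have : (x1 - g1) - n0 = (x1 - (n0 + 1)) - (g1 - 1) := by ring
    rw [this]; exact dvd_sub hx1M hg1
  have hy2M : M ∣ (x2 - a * g2) - 1 := by
    have : (x2 - a * g2) - 1 = (x2 - 1) - a * g2 := by ring
    rw [this]; exact dvd_sub hx2M (hg2.mul_left a)
  obtain ⟨z1, hz1⟩ := F_congr (a := a) (b := b) (c := c) hx1M hx2M
  obtain ⟨z2, hz2⟩ := F_congr (a := a) (b := b) (c := c) hy1M hy2M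
  rw [L.h1] at hz1
  rw [L.h0] at hz2
  have hv : Ff a b c x1 x2 = d1 * (e1 + N * (6 * a * d2 * z1)) := by
    have : M = N * (6 * a * d2) * d1 := by rw [hM, sq]; nth_rewrite 2 [hNdef]; unfold N0; ring
    rw [this] at hz1
    linear_combination hz1
  have hu : Ff a b c (x1 - g1) (x2 - a * g2) = d2 * (e2 + N * (6 * a * d1 * z2)) := by
    have : M = N * (6 * a * d1) * d2 := by rw [hM, sq]; nth_rewrite 2 [hNdef]; unfold N0; ring
    rw [this] at hz2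
    linear_combination hz2
  -- the third index
  have had : a ∣ a * x1 * (x1 - g1) + b * x2 * (x1 - g1) + c * x2 * (x2 - a * g2) := by
    obtain ⟨s, hs⟩ := haM.trans hy1M
    obtain ⟨t, ht⟩ := haM.trans hx2M
    obtain ⟨t', ht'⟩ := haM.trans hy2M
    obtain ⟨q, hq⟩ := L.had
    have h0 := L.h0
    unfold fv at h0
    rw [hq] at h0
    -- b*n0 + c = a * (q*e2 - n0^2)
    refine ⟨x1 * (x1 - g1) + b * (x2 * s) + b * n0 * t + c * (x2 * t') + c * t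
      + (q * e2 - n0 ^ 2), ?_⟩
    linear_combination (b * x2) * hs + (b * n0 + c) * ht + (c * x2) * ht' + h0
  obtain ⟨m, hm⟩ := had
  refine ⟨x1, x2, m, e2 + N * (6 * a * d1 * z2), e1 + N * (6 * a * d2 * z1), hdet, hm.symm, hv, hu,
    ?_, ?_, ?_, ?_, ?_, ?_⟩
  · exact IsCoprime.add_mul_left_left L.he1 _
  · exact IsCoprime.add_mul_left_left L.he2 _
  · exact SN_of_dvd (Dvd.intro_left d1 hv.symm) hn1
  · exact SN_of_dvd (Dvd.intro_left d2 hu.symm) hn2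
  · rw [hx1, hx10, hk0]
    have h1 : 0 ≤ M * n * g1 := by positivity
    have h2 : 0 ≤ ρ * g1 := by positivity
    nlinarith
  · rw [hx1, hx10, hk0]
    have h1 : M * n * g1 ≤ M * R * g1 := by
      apply mul_le_mul_of_nonneg_right _ hgp.le
      exact mul_le_mul_of_nonneg_left hnK' hMpos.le
    have h2 : ρ * g1 ≤ M * g1 := mul_le_mul_of_nonneg_right hρM.le hgp.le
    have h3 : (2 * κ + 2 + M) * g1 ≤ (2 * κ + 3 + M) * R * g1 := by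
      apply mul_le_mul_of_nonneg_right _ hgp.le
      have : 0 ≤ 2 * κ + 2 + M := by linarith
      nlinarith
    have h4 : (2 * κ + 3 + 2 * M) * R * g1 = (2 * κ + 3 + M) * R * g1 + M * R * g1 := by ring
    nlinarith

end Pool.Agent.H359R6
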