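import Pool.Agent.H505R2.Gammas
import Pool.Agent.H359R6.Sift

/-!
Number of base vectors `g` in a narrow cone with `Q(g)` free of small primes.
-/

set_option autoImplicit false

namespace Pool.Agent.H359R6

open Finset Pool.Agent.H505R2

/-- first coordinate -/
def gA (M κ : ℤ) (V s : ℕ) : ℤ := 1 + M * (κ * V + s)

/-- second coordinate -/
def gB (M : ℤ) (t : ℕ) : ℤ := M * t

lemma count_lin (p : ℕ) (hp : p.Prime) (A M : ℤ) (hM : ¬ (p : ℤ) ∣ M) (V : ℕ) :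
    open Classical in
    ((Ioc 0 V).filter (fun s : ℕ => (p : ℤ) ∣ A + M * s)).card ≤ V / p + 1 := by
  classical
  have hpZ : Prime (p : ℤ) := Nat.prime_iff_prime_int.1 hp
  rw [← card_range (V / p + 1)]
  apply Finset.card_le_card_of_injOn (fun s => s / p)
  · intro s hs
    rw [mem_coe, mem_filter, mem_Ioc] at hs
    rw [mem_coe, mem_range]
    exact Nat.lt_succ_of_le (Nat.div_le_div_right hs.1.2)
  · intro s hs s' hs' h
    rw [mem_coe, mem_filter, mem_Ioc] at hs hs'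
    beta_reduce at h
    have h1 : (p : ℤ) ∣ M * ((s : ℤ) - s') := by
      have := dvd_sub hs.2 hs'.2
      have e : (A + M * (s : ℤ)) - (A + M * s') = M * ((s : ℤ) - s') := by ring
      rwa [e] at this
    have h2 : (p : ℤ) ∣ (s : ℤ) - s' := (hpZ.dvd_or_dvd h1).resolve_left hM
    have h3 := Nat.div_add_mod s p
    have h4 := Nat.div_add_mod s' p
    have h5 := Nat.mod_lt s hp.pos
    have h6 := Nat.mod_lt s' hp.pos
    rw [h] at h3
    have h7 : |(s : ℤ) - s'| < p := by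
      rw [abs_lt]
      constructor <;> omega
    have h8 := Int.eq_zero_of_abs_lt_dvd h2 h7
    omega

theorem row_count6 (a b c N κ : ℤ) (h6 : (6 : ℤ) ∣ N) (I : ℕ) (hI : 10 ≤ I) (V W t : ℕ)
    (ht0 : 0 < t) (ht : t ≤ V) (hW : V ≤ 2 ^ W)
    (hKV : 2 ^ (585 * 2 ^ I) ≤ V) (hWI : W * 2 ^ (93 * I + 4) ≤ 2 ^ 2 ^ I) :
    open Classical in
    (V : ℝ) / 2 ^ (93 * I + 2) ≤ (((Ioc 0 V).filter (fun s : ℕ =>
      SN I N (Qf a b c (gA (N ^ 2) κ V s) (gB (N ^ 2) t)) ∧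
      IsCoprime (gA (N ^ 2) κ V s) (gB (N ^ 2) t))).card : ℝ) := by
  classical
  obtain ⟨M, hM⟩ : ∃ M : ℤ, M = N ^ 2 := ⟨_, rfl⟩
  rw [← hM]
  obtain ⟨A0, hA0⟩ : ∃ A0 : ℤ, A0 = 1 + M * (κ * V) := ⟨_, rfl⟩
  obtain ⟨B0, hB0⟩ : ∃ B0 : ℤ, B0 = 2 * A0 * M + b * M * gB M t := ⟨_, rfl⟩
  obtain ⟨C0, hC0⟩ : ∃ C0 : ℤ, C0 = A0 ^ 2 + b * A0 * gB M t + a * c * gB M t ^ 2 := ⟨_, rfl⟩
  have hA : SN I N (M ^ 2) := by
    intro p hp hpN hd
    have hpZ : Prime (p : ℤ) := Nat.prime_iff_prime_int.1 (mem_SI.1 hp).2.2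
    have h1 := hpZ.dvd_of_dvd_pow hd
    rw [hM] at h1
    exact hpN (hpZ.dvd_of_dvd_pow h1)
  have h1 := sift_N I (by omega) N (M ^ 2) B0 C0 (M ^ 2) B0 C0 hA hA V
  have e : ∀ s : ℕ, Qf a b c (gA M κ V s) (gB M t) = M ^ 2 * (s : ℤ) ^ 2 + B0 * s + C0 := by
    intro s; rw [hB0, hC0, hA0]; unfold Qf gA; ring
  have h2 : (Ioc 0 V).filter (fun n : ℕ => SN I N (M ^ 2 * (n : ℤ) ^ 2 + B0 * n
      + C0) ∧ SN I N (M ^ 2 * (n : ℤ) ^ 2 + B0 * n
      + C0)) = (Ioc 0 V).filter (fun s : ℕ => SN I N (Qf a b c (gA M κ V s) (gB M t))) := by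
    apply filter_congr
    intro u _
    rw [e u, and_self]
  rw [h2] at h1
  -- non coprime ones
  set P : Finset ℕ := t.primeFactors.filter (fun p : ℕ => 2 ^ 2 ^ I < p ∧ ¬ (p : ℤ) ∣ M) with hP
  have h3 : (Ioc 0 V).filter (fun s : ℕ => SN I N (Qf a b c (gA M κ V s) (gB M t))) ⊆
      (Ioc 0 V).filter (fun s : ℕ => SN I N (Qf a b c (gA M κ V s) (gB M t)) ∧
      IsCoprime (gA M κ V s) (gB M t)) ∪
      P.biUnion (fun p => (Ioc 0 V).filter (fun s : ℕ => (p : ℤ) ∣ A0 + M * s)) := by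
    intro s hs
    rw [mem_filter] at hs
    rw [mem_union]
    by_cases hc : IsCoprime (gA M κ V s) (gB M t)
    · left
      rw [mem_filter]
      exact ⟨hs.1, hs.2, hc⟩
    · right
      rw [mem_biUnion]
      rw [Int.isCoprime_iff_gcd_eq_one] at hc
      obtain ⟨p, hp, hpd⟩ := Nat.exists_prime_and_dvd hc
      have hpd1 : (p : ℤ) ∣ gA M κ V s := (Int.natCast_dvd_natCast.2 hpd).trans (Int.gcd_dvd_left _ _)
      have hpd2 : (p : ℤ) ∣ gB M t := (Int.natCast_dvd_natCast.2 hpd).trans (Int.gcd_dvd_right _ _)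
      have hpZ : Prime (p : ℤ) := Nat.prime_iff_prime_int.1 hp
      have hpM : ¬ (p : ℤ) ∣ M := by
        intro hd
        have h4 : (p : ℤ) ∣ 1 := by
          have h5 := dvd_sub hpd1 (hd.mul_right (κ * V + s))
          have h6 : gA M κ V s - M * (κ * V + s) = 1 := by unfold gA; ring
          rwa [h6] at h5
        exact hpZ.not_isUnit (isUnit_of_dvd_one h4)
      have hpN : ¬ (p : ℤ) ∣ N := by
        intro hd
        apply hpM
        rw [hM]
        exact Dvd.dvd.pow hd (by norm_num)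
      have hpt : p ∣ t := by
        have := (hpZ.dvd_or_dvd hpd2).resolve_left hpM
        exact_mod_cast this
      have hpbig : 2 ^ 2 ^ I < p := by
        by_contra hcon
        push Not at hcon
        have h5 : 5 ≤ p := by
          have := hp.two_le
          by_contra h5
          push Not at h5
          interval_cases p
          · exact hpN ((by norm_num : ((2 : ℕ) : ℤ) ∣ 6).trans h6)
          · exact hpN ((by norm_num : ((3 : ℕ) : ℤ) ∣ 6).trans h6)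
          · revert hp; norm_num
        apply hs.2 p (mem_SI.2 ⟨h5, hcon, hp⟩) hpN
        unfold Qf
        apply dvd_add
        · apply dvd_add
          · exact Dvd.dvd.pow hpd1 (by norm_num)
          · exact Dvd.dvd.mul_left hpd2 _
        · exact Dvd.dvd.mul_left (Dvd.dvd.pow hpd2 (by norm_num)) _
      refine ⟨p, ?_, ?_⟩
      · rw [hP, mem_filter, Nat.mem_primeFactors]
        exact ⟨⟨hp, hpt, by omega⟩, hpbig, hpM⟩
      · rw [mem_filter]
        refine ⟨hs.1, ?_⟩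
        have : gA M κ V s = A0 + M * s := by rw [hA0]; unfold gA; ring
        rwa [this] at hpd1
  have h4 : ((Ioc 0 V).filter (fun s : ℕ => SN I N (Qf a b c (gA M κ V s) (gB M t)))).card ≤
      ((Ioc 0 V).filter (fun s : ℕ => SN I N (Qf a b c (gA M κ V s) (gB M t)) ∧
      IsCoprime (gA M κ V s) (gB M t))).card + W * (V / 2 ^ 2 ^ I + 1) := by
    refine (card_le_card h3).trans ((card_union_le _ _).trans ?_)
    apply Nat.add_le_add_left
    refine card_biUnion_le.trans ?_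
    have h5 : ∀ p ∈ P, ((Ioc 0 V).filter (fun s : ℕ => (p : ℤ) ∣ A0 + M * s)).card
        ≤ V / 2 ^ 2 ^ I + 1 := by
      intro p hp
      rw [hP, mem_filter, Nat.mem_primeFactors] at hp
      refine (count_lin p hp.1.1 A0 M hp.2.2 V).trans ?_
      exact Nat.add_le_add_right (Nat.div_le_div_left hp.2.1.le (by positivity)) 1
    refine (sum_le_card_nsmul _ _ _ h5).trans ?_
    rw [smul_eq_mul]
    apply Nat.mul_le_mul_right
    refine (card_le_card (filter_subset _ _)).trans ?_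
    exact card_primeFactors_bound (by omega) (ht.trans hW)
  have hz : 2 ^ 2 ^ I ≤ V := by
    refine le_trans ?_ hKV
    apply Nat.pow_le_pow_right (by norm_num)
    omega
  have h5 : (((Ioc 0 V).filter (fun s : ℕ => SN I N (Qf a b c (gA M κ V s) (gB M t)))).card : ℝ) ≤
      (((Ioc 0 V).filter (fun s : ℕ => SN I N (Qf a b c (gA M κ V s) (gB M t)) ∧
      IsCoprime (gA M κ V s) (gB M t))).card : ℝ) + 2 * ((V : ℝ) / 2 ^ (93 * I + 4)) := by
    have h6 : ((W * (V / 2 ^ 2 ^ I + 1) : ℕ) : ℝ) ≤ 2 * ((V : ℝ) / 2 ^ (93 * I + 4)) := by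
      rw [← mul_div_assoc, le_div_iff₀ (by positivity)]
      have h7 : W * (V / 2 ^ 2 ^ I + 1) * 2 ^ (93 * I + 4) ≤ 2 * V := by
        calc W * (V / 2 ^ 2 ^ I + 1) * 2 ^ (93 * I + 4)
            = (V / 2 ^ 2 ^ I + 1) * (W * 2 ^ (93 * I + 4)) := by ring
          _ ≤ (V / 2 ^ 2 ^ I + 1) * 2 ^ 2 ^ I := Nat.mul_le_mul_left _ hWI
          _ = V / 2 ^ 2 ^ I * 2 ^ 2 ^ I + 2 ^ 2 ^ I := by ring
          _ ≤ V + V := Nat.add_le_add (Nat.div_mul_le_self _ _) hz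
          _ = 2 * V := by ring
      exact_mod_cast h7
    have h7 : (((Ioc 0 V).filter (fun s : ℕ =>
      SN I N (Qf a b c (gA M κ V s) (gB M t)))).card : ℝ) ≤
      ((((Ioc 0 V).filter (fun s : ℕ => SN I N (Qf a b c (gA M κ V s) (gB M t)) ∧
      IsCoprime (gA M κ V s) (gB M t))).card + W * (V / 2 ^ 2 ^ I + 1) : ℕ) : ℝ) := by
      exact_mod_cast h4
    push_cast at h7 h6
    linarith
  have h6 : (2 : ℝ) ^ (582 * 2 ^ I) ≤ (V : ℝ) / 2 ^ (93 * I + 4) := by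
    rw [le_div_iff₀ (by positivity), ← pow_add]
    have h7 : (2 : ℝ) ^ (585 * 2 ^ I) ≤ V := by exact_mod_cast hKV
    refine le_trans ?_ h7
    apply pow_le_pow_right₀ (by norm_num)
    have := pow_big I hI
    omega
  have h7 : (V : ℝ) / 2 ^ (93 * I + 1) ≤ (V : ℝ) * (Real.exp (-64) ^ I / 2) := by
    have h8 := expI I
    rw [div_le_iff₀ (by positivity)]
    have h9 : (V : ℝ) * (Real.exp (-64) ^ I / 2) * 2 ^ (93 * I + 1)
        = V * (Real.exp (-64) ^ I * 2 ^ (93 * I)) := by rw [pow_succ]; ring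
    rw [h9]
    have : (0 : ℝ) ≤ V := Nat.cast_nonneg V
    nlinarith
  have h8 : (V : ℝ) / 2 ^ (93 * I + 1) = 4 * ((V : ℝ) / 2 ^ (93 * I + 4)) * 2 := by
    rw [show 93 * I + 4 = (93 * I + 1) + 3 by ring, pow_add _ (93 * I + 1) 3]
    field_simp
    norm_num
  have h9 : (V : ℝ) / 2 ^ (93 * I + 2) = 4 * ((V : ℝ) / 2 ^ (93 * I + 4)) := by
    rw [show 93 * I + 4 = (93 * I + 2) + 2 by ring, pow_add _ (93 * I + 2) 2]
    field_simp
    norm_num
  have h10 : 0 ≤ (V : ℝ) / 2 ^ (93 * I + 4) := by positivity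
  rw [h9]
  linarith

open Classical in
/-- the set of parameters `(t, s)` -/
noncomputable def GS (a b c N κ : ℤ) (I V : ℕ) : Finset (ℕ × ℕ) :=
  ((Ioc 0 V) ×ˢ (Ioc 0 V)).filter (fun w => SN I N (Qf a b c (gA (N ^ 2) κ V w.2) (gB (N ^ 2) w.1))
    ∧ IsCoprime (gA (N ^ 2) κ V w.2) (gB (N ^ 2) w.1))

theorem GS_card (a b c N κ : ℤ) (h6 : (6 : ℤ) ∣ N) (I : ℕ) (hI : 10 ≤ I) (V W : ℕ)
    (hW : V ≤ 2 ^ W)
    (hKV : 2 ^ (585 * 2 ^ I) ≤ V) (hWI : W * 2 ^ (93 * I + 4) ≤ 2 ^ 2 ^ I) :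
    (V : ℝ) ^ 2 ≤ 2 ^ (584 * 2 ^ I) * ((GS a b c N κ I V).card : ℝ) := by
  classical
  have h1 : (GS a b c N κ I V).card = ∑ t ∈ Ioc 0 V, ((Ioc 0 V).filter (fun s : ℕ =>
      SN I N (Qf a b c (gA (N ^ 2) κ V s) (gB (N ^ 2) t)) ∧
      IsCoprime (gA (N ^ 2) κ V s) (gB (N ^ 2) t))).card := by
    unfold GS
    rw [card_filter, sum_product]
    apply sum_congr rfl
    intro v _
    rw [card_filter]
  have h2 : (V : ℝ) * ((V : ℝ) / 2 ^ (93 * I + 2)) ≤ ((GS a b c N κ I V).card : ℝ) := by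
    rw [h1]
    push_cast
    calc (V : ℝ) * ((V : ℝ) / 2 ^ (93 * I + 2)) = ∑ v ∈ Ioc 0 V, (V : ℝ) / 2 ^ (93 * I + 2) := by
          rw [sum_const, Nat.card_Ioc, nsmul_eq_mul, Nat.sub_zero]
      _ ≤ _ := sum_le_sum fun t ht => row_count6 a b c N κ h6 I hI V W t (mem_Ioc.1 ht).1
          (mem_Ioc.1 ht).2 hW hKV hWI
  have h3 : (2 : ℝ) ^ (93 * I + 2) ≤ 2 ^ (584 * 2 ^ I) := by
    apply pow_le_pow_right₀ (by norm_num)
    have := pow_big I hI
    omega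
  have h4 : (V : ℝ) ^ 2 = 2 ^ (93 * I + 2) * ((V : ℝ) * ((V : ℝ) / 2 ^ (93 * I + 2))) := by
    field_simp
  rw [h4]
  exact mul_le_mul h3 h2 (by positivity) (by positivity)

end Pool.Agent.H359R6
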