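import Pool.Agent.H359R6.Count

/-!
The finite version: main count.
-/

set_option autoImplicit false

namespace Pool.Agent.H359R6

open Finset Pool.Agent.H505R2

variable {a b c n0 d1 e1 d2 e2 : ℤ}

lemma gA_bounds {M κ : ℤ} (hM : 1 ≤ M) (hκ : 1 ≤ κ) {V s t : ℕ} (hs : s ≤ V) (ht0 : 0 < t)
    (ht : t ≤ V) :
    0 < gA M κ V s ∧ 0 ≤ gB M t ∧ κ * gB M t ≤ gA M κ V s ∧
      gA M κ V s ≤ M * (κ + 2) * V := by
  have hs' : (s : ℤ) ≤ V := by exact_mod_cast hs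
  have ht' : (t : ℤ) ≤ V := by exact_mod_cast ht
  have ht0' : (1 : ℤ) ≤ t := by exact_mod_cast ht0
  have hs0 : (0 : ℤ) ≤ s := by positivity
  have hV : (1 : ℤ) ≤ V := by linarith
  unfold gA gB
  have h1 : 0 ≤ M * (κ * V + s) := by positivity
  refine ⟨by linarith, by positivity, ?_, ?_⟩
  · have h2 : κ * (M * t) ≤ κ * (M * V) := by
      apply mul_le_mul_of_nonneg_left _ (by linarith)
      exact mul_le_mul_of_nonneg_left ht' (by linarith)
    nlinarith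
  · have h2 : M * s ≤ M * V := mul_le_mul_of_nonneg_left hs' (by linarith)
    have h3 : 1 ≤ M * V := by nlinarith
    nlinarith

lemma gA_inj {M κ : ℤ} (hM : 1 ≤ M) {V s t s' t' : ℕ} (h1 : gA M κ V s = gA M κ V s')
    (h2 : gB M t = gB M t') : s = s' ∧ t = t' := by
  unfold gA at h1
  unfold gB at h2
  have hM0 : M ≠ 0 := by linarith
  have h3 : M * (κ * V + s) = M * (κ * V + s') := by linarith
  have h4 := mul_left_cancel₀ hM0 h3
  have h5 := mul_left_cancel₀ hM0 h2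
  constructor
  · have : (s : ℤ) = s' := by linarith
    exact_mod_cast this
  · exact_mod_cast h5

theorem exists_Tr (L : Loc a b c n0 d1 e1 d2 e2) (I : ℕ) (hI : 10 ≤ I) {κ : ℤ}
    (hκ : 2 * (|b| + |c|) + 3 ≤ κ) (V : ℕ) (w : ℕ × ℕ)
    (hw : w ∈ GS a b c (N0 a d1 d2) (2 * a * κ) I V) :
    ∃ z : ℤ × ℤ × ℤ × ℤ × ℤ, Tr a b c d1 d2 κ
      ((2 * κ + 3 + 2 * N0 a d1 d2 ^ 2) * 2 ^ (584 * 2 ^ I)) I
      (gA (N0 a d1 d2 ^ 2) (2 * a * κ) V w.2) (gB (N0 a d1 d2 ^ 2) w.1)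
      z.1 z.2.1 z.2.2.1 z.2.2.2.1 z.2.2.2.2 := by
  classical
  have hN := L.N0_pos
  have ha := L.ha
  have hb := abs_nonneg b
  have hc := abs_nonneg c
  have hM : 1 ≤ N0 a d1 d2 ^ 2 := by nlinarith
  have hκ' : 1 ≤ 2 * a * κ := by nlinarith
  unfold GS at hw
  rw [mem_filter, mem_product, mem_Ioc, mem_Ioc] at hw
  obtain ⟨⟨⟨ht0, ht⟩, ⟨hs0, hs⟩⟩, hS, hco⟩ := hw
  obtain ⟨b1, b2, b3, b4⟩ := gA_bounds hM hκ' hs ht0 ht
  have hd1 : N0 a d1 d2 ^ 2 ∣ gA (N0 a d1 d2 ^ 2) (2 * a * κ) V w.2 - 1 := by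
    unfold gA; exact ⟨2 * a * κ * V + w.2, by ring⟩
  have hd2 : N0 a d1 d2 ^ 2 ∣ gB (N0 a d1 d2 ^ 2) w.1 := by
    unfold gB; exact Dvd.intro _ rfl
  obtain ⟨x1, x2, m, u, v, h1, h2, h3, h4, h5, h6, h7, h8, h9, h10⟩ :=
    exists_triple6 L I hI (κ := κ) (by linarith) hd1 hd2 b1 hco hS
  refine ⟨(x1, x2, m, u, v), ⟨L.ha, L.cop, L.hd1, L.hd2, hκ, b1, b2, b3, h1, h2, h3, h4, ?_, h5, h6, hS,
    h7, h8, h9, h10⟩⟩
  -- coprimality of Q(g)
  have hNd1 : N0 a d1 d2 ∣ gA (N0 a d1 d2 ^ 2) (2 * a * κ) V w.2 - 1 :=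
    (Dvd.intro_left (N0 a d1 d2) (by ring)).trans hd1
  have hNd2 : N0 a d1 d2 ∣ gB (N0 a d1 d2 ^ 2) w.1 :=
    (Dvd.intro_left (N0 a d1 d2) (by ring)).trans hd2
  obtain ⟨s, hs'⟩ := hNd1
  obtain ⟨t, ht'⟩ := hNd2
  refine ⟨1, -(s * (gA (N0 a d1 d2 ^ 2) (2 * a * κ) V w.2 + 1)
    + b * gA (N0 a d1 d2 ^ 2) (2 * a * κ) V w.2 * t
    + a * c * gB (N0 a d1 d2 ^ 2) w.1 * t), ?_⟩
  unfold Qf
  linear_combination (gA (N0 a d1 d2 ^ 2) (2 * a * κ) V w.2 + 1) * hs'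
    + (b * gA (N0 a d1 d2 ^ 2) (2 * a * κ) V w.2 + a * c * gB (N0 a d1 d2 ^ 2) w.1) * ht'

lemma mem_TS_of {D : Finset ℕ} {I X : ℕ} {E : ℕ → ℕ} {e : ℕ} {m : ℤ} {d u : ℕ} (hm0 : 0 < m)
    (hmX : m ≤ X) (hd : d ∈ D) (hf : fv a b c m = ((d * u : ℕ) : ℤ)) (hu : 0 < u) (hl : Lg6 I u)
    (hE : E (d * u) % 2 = e % 2) : m.toNat ∈ TS a b c D I X E e := by
  classical
  unfold TS
  rw [mem_filter, mem_range]
  have h1 : ((m.toNat : ℕ) : ℤ) = m := Int.toNat_of_nonneg hm0.le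
  refine ⟨by omega, d, hd, u, ?_, hu, hl, hE⟩
  rw [h1]; exact hf

theorem main_count6 (L : Loc a b c n0 d1 e1 d2 e2) (E : ℕ → ℕ) (hE : AddF E) (I : ℕ) (hI : 10 ≤ I)
    {κ : ℤ} (hκ : 2 * (|b| + |c|) + 3 ≤ κ) (V X T : ℕ) (D : Finset ℕ) (hD1 : d1.toNat ∈ D)
    (hD2 : d2.toNat ∈ D) (hD3 : (d1 * d2 / a).toNat ∈ D)
    (hX : (1 + |b| + |c|) * ((2 * κ + 3 + 2 * N0 a d1 d2 ^ 2) * 2 ^ (584 * 2 ^ I)
      * (N0 a d1 d2 ^ 2 * (2 * a * κ + 2) * V)) ^ 2 ≤ X)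
    (hT : ∀ m : ℕ, m ≤ X → (fv a b c m).toNat.divisors.card ≤ T) :
    (GS a b c (N0 a d1 d2) (2 * a * κ) I V).card
      ≤ 3 * (T * (TS a b c D I X E (E a.toNat)).card) := by
  classical
  have hN := L.N0_pos
  have ha := L.ha
  have hb := abs_nonneg b
  have hc := abs_nonneg c
  have hld1 := L.hd1
  have hld2 := L.hd2
  have hM : 1 ≤ N0 a d1 d2 ^ 2 := by nlinarith
  have hκ' : 1 ≤ 2 * a * κ := by nlinarith
  have h6N : (6 : ℤ) ∣ N0 a d1 d2 := ⟨a * d1 * d2, by unfold N0; ring⟩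
  set N := N0 a d1 d2 with hNdef
  set M := N ^ 2 with hMdef
  set R : ℤ := (2 * κ + 3 + 2 * M) * 2 ^ (584 * 2 ^ I) with hR
  have hR1 : 1 ≤ R := by
    have h1 : (1 : ℤ) ≤ 2 ^ (584 * 2 ^ I) := one_le_pow₀ (by norm_num)
    rw [hR]; nlinarith
  set G := GS a b c N (2 * a * κ) I V with hG
  have hGm : ∀ w ∈ G, 0 < w.1 ∧ w.1 ≤ V ∧ w.2 ≤ V := by
    intro w hw
    rw [hG] at hw
    unfold GS at hw
    rw [mem_filter, mem_product, mem_Ioc, mem_Ioc] at hw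
    exact ⟨hw.1.1.1, hw.1.1.2, hw.1.2.2⟩
  have key : ∀ w ∈ G, ∃ z : ℤ × ℤ × ℤ × ℤ × ℤ, Tr a b c d1 d2 κ R I
      (gA M (2 * a * κ) V w.2) (gB M w.1) z.1 z.2.1 z.2.2.1 z.2.2.2.1 z.2.2.2.2 :=
    fun w hw => exists_Tr L I hI hκ V w hw
  choose! z hz using key
  -- abbreviations
  set D1 := d1.toNat with hD1'
  set D2 := d2.toNat with hD2'
  set D3 := (d1 * d2 / a).toNat with hD3'
  set A := a.toNat with hA'
  have cA : (A : ℤ) = a := Int.toNat_of_nonneg (by linarith)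
  have cD1 : (D1 : ℤ) = d1 := Int.toNat_of_nonneg (by linarith)
  have cD2 : (D2 : ℤ) = d2 := Int.toNat_of_nonneg (by linarith)
  have hadd : a ∣ d1 * d2 := L.had.mul_left d1
  have cD3 : (D3 : ℤ) = d1 * d2 / a := Int.toNat_of_nonneg (by positivity)
  have hAD : A * D3 = D1 * D2 := by
    have : (A : ℤ) * D3 = D1 * D2 := by
      rw [cA, cD3, cD1, cD2]; exact Int.mul_ediv_cancel' hadd
    exact_mod_cast this
  have hA0 : A ≠ 0 := by omega
  have hD10 : D1 ≠ 0 := by omega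
  have hD20 : D2 ≠ 0 := by omega
  have hD30 : D3 ≠ 0 := by
    intro h0
    rw [h0, mul_zero] at hAD
    have := Nat.mul_ne_zero hD10 hD20
    omega
  have hEA : E A + E D3 = E D1 + E D2 := by
    rw [← hE A D3 hA0 hD30, ← hE D1 D2 hD10 hD20, hAD]
  -- sizes
  have hsz : ∀ w ∈ G, (1 + |b| + |c|) * (R * gA M (2 * a * κ) V w.2) ^ 2 ≤ X := by
    intro w hw
    obtain ⟨h1, h2, h3⟩ := hGm w hw
    obtain ⟨b1, b2, b3, b4⟩ := gA_bounds hM hκ' h3 h1 h2
    refine le_trans ?_ hX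
    apply mul_le_mul_of_nonneg_left _ (by linarith)
    apply pow_le_pow_left₀ (by positivity)
    exact mul_le_mul_of_nonneg_left b4 (by linarith)
  -- natural versions
  set q : ℕ × ℕ → ℕ := fun w => (Qf a b c (gA M (2 * a * κ) V w.2) (gB M w.1)).toNat with hq
  set v : ℕ × ℕ → ℕ := fun w => (z w).2.2.2.2.toNat with hv
  set u : ℕ × ℕ → ℕ := fun w => (z w).2.2.2.1.toNat with hu
  have cq : ∀ w ∈ G, ((q w : ℕ) : ℤ) = Qf a b c (gA M (2 * a * κ) V w.2) (gB M w.1) :=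
    fun w hw => Int.toNat_of_nonneg (hz w hw).pos.1.le
  have cv : ∀ w ∈ G, ((v w : ℕ) : ℤ) = (z w).2.2.2.2 :=
    fun w hw => Int.toNat_of_nonneg (hz w hw).pos.2.1.le
  have cu : ∀ w ∈ G, ((u w : ℕ) : ℤ) = (z w).2.2.2.1 :=
    fun w hw => Int.toNat_of_nonneg (hz w hw).pos.2.2.le
  have pq : ∀ w ∈ G, 0 < q w := fun w hw => by
    have := (hz w hw).pos.1; rw [← cq w hw] at this; exact_mod_cast this
  have pv : ∀ w ∈ G, 0 < v w := fun w hw => by
    have := (hz w hw).pos.2.1; rw [← cv w hw] at this; exact_mod_cast this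
  have pu : ∀ w ∈ G, 0 < u w := fun w hw => by
    have := (hz w hw).pos.2.2; rw [← cu w hw] at this; exact_mod_cast this
  have lq : ∀ w ∈ G, Lg6 I (q w) := fun w hw => lg6_of h6N (hz w hw).pos.1 (hz w hw).Sg (hz w hw).cg
  have lv : ∀ w ∈ G, Lg6 I (v w) :=
    fun w hw => lg6_of h6N (hz w hw).pos.2.1 (hz w hw).Sv (hz w hw).cv
  have lu : ∀ w ∈ G, Lg6 I (u w) :=
    fun w hw => lg6_of h6N (hz w hw).pos.2.2 (hz w hw).Su (hz w hw).cu
  set m1 : ℕ × ℕ → ℤ := fun w => mA b c (gA M (2 * a * κ) V w.2) (gB M w.1) (z w).1 (z w).2.1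
    with hm1
  set m2 : ℕ × ℕ → ℤ := fun w => mA b c (gA M (2 * a * κ) V w.2) (gB M w.1)
    ((z w).1 - gA M (2 * a * κ) V w.2) ((z w).2.1 - a * gB M w.1) with hm2
  set m3 : ℕ × ℕ → ℤ := fun w => (z w).2.2.1 with hm3
  have f1 : ∀ w ∈ G, fv a b c (m1 w) = ((D1 * (q w * v w) : ℕ) : ℤ) := by
    intro w hw
    have := (hz w hw).vals.1
    push_cast
    rw [cD1, cq w hw, cv w hw]
    exact this
  have f2 : ∀ w ∈ G, fv a b c (m2 w) = ((D2 * (q w * u w) : ℕ) : ℤ) := by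
    intro w hw
    have := (hz w hw).vals.2.1
    push_cast
    rw [cD2, cq w hw, cu w hw]
    exact this
  have f3 : ∀ w ∈ G, fv a b c (m3 w) = ((D3 * (v w * u w) : ℕ) : ℤ) := by
    intro w hw
    have h := (hz w hw).vals.2.2
    have ha0 : a ≠ 0 := by linarith
    apply mul_left_cancel₀ ha0
    push_cast
    rw [cv w hw, cu w hw]
    rw [h]
    have : a * (D3 : ℤ) = d1 * d2 := by rw [cD3]; exact Int.mul_ediv_cancel' hadd
    linear_combination (-(z w).2.2.2.2 * (z w).2.2.2.1) * this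
  set e := E A with he
  set G1 := G.filter (fun w => E (D1 * (q w * v w)) % 2 = e % 2) with hG1
  set G2 := G.filter (fun w => E (D2 * (q w * u w)) % 2 = e % 2) with hG2
  set G3 := G.filter (fun w => E (D3 * (v w * u w)) % 2 = e % 2) with hG3
  have hcov : G ⊆ G1 ∪ (G2 ∪ G3) := by
    intro w hw
    rw [mem_union, mem_union, hG1, hG2, hG3, mem_filter, mem_filter, mem_filter]
    have hq0 := (pq w hw).ne'
    have hv0 := (pv w hw).ne'
    have hu0 := (pu w hw).ne'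
    have E1 : E (D1 * (q w * v w)) = E D1 + (E (q w) + E (v w)) := by
      rw [hE _ _ hD10 (Nat.mul_ne_zero hq0 hv0), hE _ _ hq0 hv0]
    have E2 : E (D2 * (q w * u w)) = E D2 + (E (q w) + E (u w)) := by
      rw [hE _ _ hD20 (Nat.mul_ne_zero hq0 hu0), hE _ _ hq0 hu0]
    have E3 : E (D3 * (v w * u w)) = E D3 + (E (v w) + E (u w)) := by
      rw [hE _ _ hD30 (Nat.mul_ne_zero hv0 hu0), hE _ _ hv0 hu0]
    rw [E1, E2, E3]
    by_contra hcon
    push Not at hcon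
    obtain ⟨c1, c2, c3⟩ := hcon
    have c1' := c1 hw
    have c2' := c2 hw
    have c3' := c3 hw
    omega
  have hTS : ∀ m ∈ TS a b c D I X E e, ((fun n : ℕ => (fv a b c (n : ℤ)).toNat) m).divisors.card
      ≤ T := by
    intro m hm
    unfold TS at hm
    rw [mem_filter, mem_range] at hm
    exact hT m (by omega)
  have hinj1 : ∀ w ∈ G, ∀ w' ∈ G, gA M (2 * a * κ) V w.2 = gA M (2 * a * κ) V w'.2 →
      gB M w.1 = gB M w'.1 → w = w' := by
    intro w _ w' _ h1 h2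
    have := gA_inj hM h1 h2
    exact Prod.ext this.2 this.1
  have c3g : ∀ w ∈ G, 3 * gB M w.1 ≤ gA M (2 * a * κ) V w.2 := by
    intro w hw
    have h1 := (hz w hw).cones.2.2
    have h2 := (hz w hw).hg2
    nlinarith
  have b1 : G1.card ≤ T * (TS a b c D I X E e).card := by
    apply count_fiber G1 (fun w => (m1 w).toNat) q _ (fun n : ℕ => (fv a b c (n : ℤ)).toNat) T _ _ _
      hTS
    · intro w hw
      rw [hG1, mem_filter] at hw
      have hs := (hz w hw.1).sizes.1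
      exact mem_TS_of hs.1 (hs.2.trans (hsz w hw.1)) hD1 (f1 w hw.1)
        (Nat.mul_pos (pq w hw.1) (pv w hw.1)) ((lq w hw.1).mul (lv w hw.1)) hw.2
    · intro w hw
      rw [hG1, mem_filter] at hw
      have hs := (hz w hw.1).sizes.1
      beta_reduce
      rw [Int.toNat_of_nonneg hs.1.le, f1 w hw.1, Int.toNat_natCast, Nat.mem_divisors]
      exact ⟨⟨D1 * v w, by ring⟩, Nat.mul_ne_zero hD10 (Nat.mul_pos (pq w hw.1) (pv w hw.1)).ne'⟩
    · intro w hw w' hw' h1 h2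
      rw [hG1, mem_filter] at hw hw'
      have s1 : 0 < m1 w := (hz w hw.1).sizes.1.1
      have s2 : 0 < m1 w' := (hz w' hw'.1).sizes.1.1
      beta_reduce at h1
      have h3 : m1 w = m1 w' := by omega
      have h4 : Qf a b c (gA M (2 * a * κ) V w.2) (gB M w.1)
          = Qf a b c (gA M (2 * a * κ) V w'.2) (gB M w'.1) := by
        rw [← cq w hw.1, ← cq w' hw'.1, h2]
      have h5 := uniq1 (hz w hw.1).det (hz w' hw'.1).det h3 h4 (hz w hw.1).hg1 (hz w hw.1).hg2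
        (c3g w hw.1) (hz w hw.1).Qsize (hz w' hw'.1).hg1 (hz w' hw'.1).hg2 (c3g w' hw'.1)
        (hz w' hw'.1).Qsize
      exact hinj1 w hw.1 w' hw'.1 h5.1 h5.2
  have b2 : G2.card ≤ T * (TS a b c D I X E e).card := by
    apply count_fiber G2 (fun w => (m2 w).toNat) q _ (fun n : ℕ => (fv a b c (n : ℤ)).toNat) T _ _ _
      hTS
    · intro w hw
      rw [hG2, mem_filter] at hw
      have hs := (hz w hw.1).sizes.2.1
      exact mem_TS_of hs.1 (hs.2.trans (hsz w hw.1)) hD2 (f2 w hw.1)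
        (Nat.mul_pos (pq w hw.1) (pu w hw.1)) ((lq w hw.1).mul (lu w hw.1)) hw.2
    · intro w hw
      rw [hG2, mem_filter] at hw
      have hs := (hz w hw.1).sizes.2.1
      beta_reduce
      rw [Int.toNat_of_nonneg hs.1.le, f2 w hw.1, Int.toNat_natCast, Nat.mem_divisors]
      exact ⟨⟨D2 * u w, by ring⟩, Nat.mul_ne_zero hD20 (Nat.mul_pos (pq w hw.1) (pu w hw.1)).ne'⟩
    · intro w hw w' hw' h1 h2
      rw [hG2, mem_filter] at hw hw'
      have s1 : 0 < m2 w := (hz w hw.1).sizes.2.1.1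
      have s2 : 0 < m2 w' := (hz w' hw'.1).sizes.2.1.1
      beta_reduce at h1
      have h3 : m2 w = m2 w' := by omega
      have h4 : Qf a b c (gA M (2 * a * κ) V w.2) (gB M w.1)
          = Qf a b c (gA M (2 * a * κ) V w'.2) (gB M w'.1) := by
        rw [← cq w hw.1, ← cq w' hw'.1, h2]
      have h5 := uniq1 (hz w hw.1).det2 (hz w' hw'.1).det2 h3 h4 (hz w hw.1).hg1 (hz w hw.1).hg2
        (c3g w hw.1) (hz w hw.1).Qsize (hz w' hw'.1).hg1 (hz w' hw'.1).hg2 (c3g w' hw'.1)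
        (hz w' hw'.1).Qsize
      exact hinj1 w hw.1 w' hw'.1 h5.1 h5.2
  have b3 : G3.card ≤ T * (TS a b c D I X E e).card := by
    have hFv : ∀ w ∈ G, Ff a b c (z w).1 (z w).2.1 = ((D1 * v w : ℕ) : ℤ) := by
      intro w hw
      push_cast
      rw [(hz w hw).hF1, cD1, cv w hw]
    apply count_fiber G3 (fun w => (m3 w).toNat) v _ (fun n : ℕ => (fv a b c (n : ℤ)).toNat) T _ _ _
      hTS
    · intro w hw
      rw [hG3, mem_filter] at hw
      have hs := (hz w hw.1).sizes.2.2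
      exact mem_TS_of hs.1 (hs.2.trans (hsz w hw.1)) hD3 (f3 w hw.1)
        (Nat.mul_pos (pv w hw.1) (pu w hw.1)) ((lv w hw.1).mul (lu w hw.1)) hw.2
    · intro w hw
      rw [hG3, mem_filter] at hw
      have hs := (hz w hw.1).sizes.2.2
      beta_reduce
      rw [Int.toNat_of_nonneg hs.1.le, f3 w hw.1, Int.toNat_natCast, Nat.mem_divisors]
      exact ⟨⟨D3 * u w, by ring⟩, Nat.mul_ne_zero hD30 (Nat.mul_pos (pv w hw.1) (pu w hw.1)).ne'⟩
    · intro w hw w' hw' h1 h2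
      rw [hG3, mem_filter] at hw hw'
      have s1 : 0 < m3 w := (hz w hw.1).sizes.2.2.1
      have s2 : 0 < m3 w' := (hz w' hw'.1).sizes.2.2.1
      beta_reduce at h1
      have h3 : (z w).2.2.1 = (z w').2.2.1 := by
        have h0 : m3 w = m3 w' := by omega
        exact h0
      have h4 : Ff a b c (z w).1 (z w).2.1 = Ff a b c (z w').1 (z w').2.1 := by
        rw [hFv w hw.1, hFv w' hw'.1, h2]
      have hcoa : IsCoprime (Ff a b c (z w).1 (z w).2.1) a := by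
        rw [(hz w hw.1).hF1]
        apply IsCoprime.mul_left (hz w hw.1).cd
        have h5 := (hz w hw.1).cv
        exact h5.of_isCoprime_of_dvd_right ⟨6 * d1 * d2, by unfold N0; ring⟩
      have hm3' := (hz w' hw'.1).hm
      rw [← h3] at hm3'
      have k1 := (hz w hw.1).cones.1
      have k2 := (hz w' hw'.1).cones.1
      have hκ3 : 3 ≤ κ := by linarith
      have h5 := uniq3 (hz w hw.1).det3 (hz w' hw'.1).det3 (hz w hw.1).hm hm3' h4 hcoa k1.1 k1.2.1.le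
        (by nlinarith [k1.2.1, k1.2.2]) (hz w hw.1).Fsize.1 k2.1 k2.2.1.le
        (by nlinarith [k2.2.1, k2.2.2]) (hz w' hw'.1).Fsize.1
      obtain ⟨⟨h6, h7⟩, h8, h9⟩ := h5
      apply hinj1 w hw.1 w' hw'.1
      · linarith
      · have ha0 : a ≠ 0 := by linarith
        apply mul_left_cancel₀ ha0
        linarith
  have hfin := (card_le_card hcov).trans ((card_union_le _ _).trans
    (Nat.add_le_add_left (card_union_le _ _) _))
  omega

end Pool.Agent.H359R6
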