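import Pool.Agent.H505R2.Core
import Pool.Agent.H359R6.Main

/-!
The asymptotic version.
-/

set_option autoImplicit false

namespace Pool.Agent.H359R6

open Finset Filter Pool.Agent.H505R2

variable {a b c n0 d1 e1 d2 e2 : ℤ}

lemma fv_le {X m : ℕ} (ha : 1 ≤ a) (hm : m ≤ X) (hX : 1 ≤ X) :
    |fv a b c (m : ℤ)| ≤ (a + |b| + |c|) * (X : ℤ) ^ 2 := by
  unfold fv
  have hmX : (m : ℤ) ≤ X := by exact_mod_cast hm
  have hX1 : (1 : ℤ) ≤ X := by exact_mod_cast hX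
  have hm0 : (0 : ℤ) ≤ m := by positivity
  have h1 : (m : ℤ) ^ 2 ≤ (X : ℤ) ^ 2 := pow_le_pow_left₀ hm0 hmX 2
  have h2 : (m : ℤ) ≤ (X : ℤ) ^ 2 := by nlinarith
  have h3 : (1 : ℤ) ≤ (X : ℤ) ^ 2 := one_le_pow₀ hX1
  have hb := abs_nonneg b
  have hc := abs_nonneg c
  calc |a * (m : ℤ) ^ 2 + b * m + c| ≤ |a * (m : ℤ) ^ 2| + |b * m| + |c| := abs_add_three _ _ _
    _ = a * (m : ℤ) ^ 2 + |b| * m + |c| := by
        rw [abs_mul b, abs_of_nonneg hm0, abs_of_nonneg (by positivity : 0 ≤ a * (m : ℤ) ^ 2)]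
    _ ≤ a * (X : ℤ) ^ 2 + |b| * (X : ℤ) ^ 2 + |c| * (X : ℤ) ^ 2 := by
        have h4 : a * (m : ℤ) ^ 2 ≤ a * (X : ℤ) ^ 2 := mul_le_mul_of_nonneg_left h1 (by linarith)
        have h5 : |b| * (m : ℤ) ≤ |b| * (X : ℤ) ^ 2 := mul_le_mul_of_nonneg_left h2 hb
        have h6 : |c| * 1 ≤ |c| * (X : ℤ) ^ 2 := mul_le_mul_of_nonneg_left h3 hc
        linarith
    _ = (a + |b| + |c|) * (X : ℤ) ^ 2 := by ring

theorem core6 (L : Loc a b c n0 d1 e1 d2 e2) (D : Finset ℕ) (hD1 : d1.toNat ∈ D)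
    (hD2 : d2.toNat ∈ D) (hD3 : (d1 * d2 / a).toNat ∈ D) (ε : ℝ) (hε : 0 < ε) :
    ∃ δ : ℝ, 0 < δ ∧ ∀ᶠ X : ℕ in atTop, ∃ I : ℕ, (X : ℝ) ^ δ < 2 ^ 2 ^ I ∧
      ∀ E : ℕ → ℕ, AddF E →
        (X : ℝ) ^ (1 - ε) ≤ ((TS a b c D I X E (E a.toNat)).card : ℝ) := by
  have hN := L.N0_pos
  have ha := L.ha
  have hb := abs_nonneg b
  have hc := abs_nonneg c
  set η : ℝ := min ε 1 / 12 with hη
  have hmin : 0 < min ε 1 := lt_min hε one_pos
  have hη0 : 0 < η := by rw [hη]; positivity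
  have hη1 : η ≤ 1 / 12 := by
    rw [hη]
    have := min_le_right ε 1
    linarith
  have hη2 : 12 * η ≤ ε := by
    rw [hη]
    have := min_le_left ε 1
    linarith
  obtain ⟨C, hC1, hC⟩ := div_bound (δ := η / 3) (by positivity)
  obtain ⟨κ, hκ⟩ : ∃ κ : ℤ, κ = 2 * (|b| + |c|) + 3 := ⟨_, rfl⟩
  have hκ3 : 3 ≤ κ := by linarith
  obtain ⟨Cz, hCz⟩ : ∃ Cz : ℤ, Cz = (1 + |b| + |c|) * ((2 * κ + 3 + 2 * N0 a d1 d2 ^ 2)
      * (N0 a d1 d2 ^ 2 * (2 * a * κ + 2))) ^ 2 := ⟨_, rfl⟩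
  have hM1 : 1 ≤ N0 a d1 d2 ^ 2 := by nlinarith
  have haκ : 1 ≤ a * κ := by nlinarith
  have hCz1 : 1 ≤ Cz := by
    rw [hCz]
    have h1 : 1 ≤ (2 * κ + 3 + 2 * N0 a d1 d2 ^ 2) * (N0 a d1 d2 ^ 2 * (2 * a * κ + 2)) := by
      have h2 : 1 ≤ 2 * κ + 3 + 2 * N0 a d1 d2 ^ 2 := by linarith
      have h3 : 1 ≤ N0 a d1 d2 ^ 2 * (2 * a * κ + 2) := by nlinarith
      nlinarith
    have h2 := one_le_pow₀ (n := 2) h1
    nlinarith
  set C0 : ℕ := Cz.toNat with hC0def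
  have hC0 : (C0 : ℤ) = Cz := Int.toNat_of_nonneg (by linarith)
  have hC01 : 1 ≤ C0 := by omega
  obtain ⟨D', hD'⟩ := exists_nat_ge (1168 / η)
  set I0 : ℕ := D' + 20 with hI0
  refine ⟨η / 1168, by positivity, ?_⟩
  filter_upwards [ev_ge hη0 ((2 : ℝ) ^ (584 * 2 ^ I0)), ev_ge (show (0 : ℝ) < 1 - 5 * η by linarith)
    (C0 : ℝ), eventually_ge_atTop (a + |b| + |c|).toNat, eventually_ge_atTop 1,
    ev_ge (show (0 : ℝ) < ε - 4 * η by linarith) (12 * (C0 : ℝ) * C)]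
    with X hX1 hX2 hX3 hX4 hX5
  have hX0 : (0 : ℝ) < X := by exact_mod_cast hX4
  have hX1' : (1 : ℝ) ≤ X := by exact_mod_cast hX4
  obtain ⟨I, hII, hI1, hI2⟩ := exists_level I0 hX1
  have hI10 : 10 ≤ I := by omega
  refine ⟨I, ?_, ?_⟩
  · -- sifting limit
    have h1 : ((X : ℝ) ^ (η / 1168)) ^ (1168 : ℕ) < ((2 : ℝ) ^ 2 ^ I) ^ (1168 : ℕ) := by
      rw [← Real.rpow_natCast, ← Real.rpow_mul hX0.le, ← pow_mul]
      have e1 : η / 1168 * ((1168 : ℕ) : ℝ) = η := by push_cast; ring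
      rw [e1, mul_comm (2 ^ I) 1168]
      exact hI2
    exact lt_of_pow_lt_pow_left₀ 1168 (by positivity) h1
  -- parameters
  set M : ℕ := C0 * 2 ^ (1168 * 2 ^ I) with hM
  have hMpos : 0 < M := by rw [hM]; positivity
  set V : ℕ := Nat.sqrt (X / M) with hV
  have hVX : M * V ^ 2 ≤ X := by
    have h1 : V ^ 2 ≤ X / M := Nat.sqrt_le' _
    calc M * V ^ 2 ≤ M * (X / M) := Nat.mul_le_mul_left _ h1
      _ ≤ X := Nat.mul_div_le _ _
  have hK5 : (2 : ℝ) ^ (2338 * 2 ^ I) ≤ (X : ℝ) ^ (5 * η) := by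
    calc (2 : ℝ) ^ (2338 * 2 ^ I) ≤ ((2 : ℝ) ^ (584 * 2 ^ I)) ^ 5 := by
          rw [← pow_mul]
          apply pow_le_pow_right₀ (by norm_num)
          have : 0 < 2 ^ I := by positivity
          omega
      _ ≤ ((X : ℝ) ^ η) ^ 5 := pow_le_pow_left₀ (by positivity) hI1 5
      _ = (X : ℝ) ^ (5 * η) := by
          rw [← Real.rpow_natCast, ← Real.rpow_mul hX0.le]
          congr 1
          push_cast
          ring
  have hKV : 2 ^ (585 * 2 ^ I) ≤ V := by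
    rw [hV, Nat.le_sqrt, Nat.le_div_iff_mul_le hMpos]
    have h1 : (C0 : ℝ) * 2 ^ (2338 * 2 ^ I) ≤ X := by
      calc (C0 : ℝ) * 2 ^ (2338 * 2 ^ I) ≤ (X : ℝ) ^ (1 - 5 * η) * (X : ℝ) ^ (5 * η) :=
            mul_le_mul hX2 hK5 (by positivity) (by positivity)
        _ = X := by
            rw [← Real.rpow_add hX0]
            have : 1 - 5 * η + 5 * η = 1 := by ring
            rw [this, Real.rpow_one]
    have h2 : 2 ^ (585 * 2 ^ I) * 2 ^ (585 * 2 ^ I) * M = C0 * 2 ^ (2338 * 2 ^ I) := by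
      rw [hM]
      rw [show 2338 * 2 ^ I = 585 * 2 ^ I + 585 * 2 ^ I + 1168 * 2 ^ I by ring, pow_add, pow_add]
      ring
    rw [h2]
    exact_mod_cast h1
  have hV1 : 1 ≤ V := le_trans Nat.one_le_two_pow hKV
  have hX4M : X ≤ 4 * (M * V ^ 2) := by
    have h1 : X < M * (X / M + 1) := Nat.lt_mul_div_succ X hMpos
    have h2 : X / M + 1 ≤ (V + 1) ^ 2 := by
      have := Nat.lt_succ_sqrt' (X / M)
      rw [← hV] at this
      exact this
    have h3 : (V + 1) ^ 2 ≤ 4 * V ^ 2 := by nlinarith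
    calc X ≤ M * (X / M + 1) := h1.le
      _ ≤ M * (4 * V ^ 2) := Nat.mul_le_mul_left _ (h2.trans h3)
      _ = 4 * (M * V ^ 2) := by ring
  set W : ℕ := D' * 2 ^ I with hW
  have hXW : (X : ℝ) ≤ 2 ^ W := by
    have h1 : (X : ℝ) = ((X : ℝ) ^ η) ^ (1 / η) := by
      rw [← Real.rpow_mul hX0.le, mul_one_div_cancel hη0.ne', Real.rpow_one]
    rw [h1]
    calc ((X : ℝ) ^ η) ^ (1 / η) ≤ ((2 : ℝ) ^ (1168 * 2 ^ I)) ^ (1 / η) :=
          Real.rpow_le_rpow (by positivity) hI2.le (by positivity)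
      _ = (2 : ℝ) ^ (((1168 * 2 ^ I : ℕ) : ℝ) * (1 / η)) := by
          rw [← Real.rpow_natCast, ← Real.rpow_mul (by norm_num)]
      _ ≤ (2 : ℝ) ^ ((W : ℕ) : ℝ) := by
          apply Real.rpow_le_rpow_of_exponent_le (by norm_num)
          rw [hW]
          push_cast
          have h2 : (0 : ℝ) < 2 ^ I := by positivity
          calc (1168 : ℝ) * 2 ^ I * (1 / η) = (1168 / η) * 2 ^ I := by ring
            _ ≤ D' * 2 ^ I := mul_le_mul_of_nonneg_right hD' h2.le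
      _ = (2 : ℝ) ^ W := Real.rpow_natCast _ _
  have hVW : V ≤ 2 ^ W := by
    have h1 : X ≤ 2 ^ W := by exact_mod_cast hXW
    refine le_trans ?_ h1
    have h2 : 1 * V ^ 2 ≤ M * V ^ 2 := Nat.mul_le_mul_right _ hMpos
    nlinarith
  have hWI : W * 2 ^ (93 * I + 4) ≤ 2 ^ 2 ^ I := by
    have h1 : D' ≤ 2 ^ D' := Nat.lt_two_pow_self.le
    calc W * 2 ^ (93 * I + 4) ≤ (2 ^ D' * 2 ^ I) * 2 ^ (93 * I + 4) := by
          rw [hW]
          exact Nat.mul_le_mul_right _ (Nat.mul_le_mul_right _ h1)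
      _ = 2 ^ (D' + I + (93 * I + 4)) := by rw [← pow_add, ← pow_add]
      _ ≤ 2 ^ 2 ^ I := by
          apply Nat.pow_le_pow_right (by norm_num)
          have h2 : 95 * I + 4 ≤ 2 ^ I := by
            have h3 : ∀ n : ℕ, 20 ≤ n → 95 * n + 4 ≤ 2 ^ n := by
              intro n hn
              induction n, hn using Nat.le_induction with
              | base => norm_num
              | succ n hn ih => rw [pow_succ]; omega
            exact h3 I (by omega)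
          omega
  -- divisor bound
  set T : ℕ := ⌊C * (X : ℝ) ^ η⌋₊ with hT
  have hTb : ∀ m : ℕ, m ≤ X → (fv a b c (m : ℤ)).toNat.divisors.card ≤ T := by
    intro m hm
    by_cases h0 : (fv a b c (m : ℤ)).toNat = 0
    · rw [h0]; simp
    have h1 := fv_le (b := b) (c := c) ha hm hX4
    have h2 : ((fv a b c (m : ℤ)).toNat : ℤ) ≤ (X : ℤ) ^ 3 := by
      have h3 : ((fv a b c (m : ℤ)).toNat : ℤ) = fv a b c (m : ℤ) := by omega
      rw [h3]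
      have h4 : a + |b| + |c| ≤ (X : ℤ) := by
        have := Int.self_le_toNat (a + |b| + |c|)
        have h5 : (((a + |b| + |c|).toNat : ℕ) : ℤ) ≤ (X : ℤ) := by exact_mod_cast hX3
        linarith
      calc fv a b c (m : ℤ) ≤ (a + |b| + |c|) * (X : ℤ) ^ 2 := (le_abs_self _).trans h1
        _ ≤ (X : ℤ) * (X : ℤ) ^ 2 := mul_le_mul_of_nonneg_right h4 (by positivity)
        _ = (X : ℤ) ^ 3 := by ring
    have h3 : (fv a b c (m : ℤ)).toNat ≤ X ^ 3 := by exact_mod_cast h2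
    rw [hT]
    apply Nat.le_floor
    refine (hC _ h0).trans ?_
    apply mul_le_mul_of_nonneg_left _ (by linarith)
    calc (((fv a b c (m : ℤ)).toNat : ℕ) : ℝ) ^ (η / 3) ≤ ((X : ℝ) ^ 3) ^ (η / 3) := by
          apply Real.rpow_le_rpow (by positivity) _ (by positivity)
          exact_mod_cast h3
      _ = (X : ℝ) ^ η := by
          rw [← Real.rpow_natCast, ← Real.rpow_mul hX0.le]
          congr 1
          push_cast
          ring
  have hTle : (T : ℝ) ≤ C * (X : ℝ) ^ η := Nat.floor_le (by positivity)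
  intro E hE
  have h6N : (6 : ℤ) ∣ N0 a d1 d2 := ⟨a * d1 * d2, by unfold N0; ring⟩
  have hcount := GS_card a b c (N0 a d1 d2) (2 * a * κ) h6N I hI10 V W hVW hKV hWI
  have hmain := main_count6 L E hE I hI10 (κ := κ) (by linarith) V X T D hD1 hD2 hD3 (by
    have h1 : (1 + |b| + |c|) * ((2 * κ + 3 + 2 * N0 a d1 d2 ^ 2) * 2 ^ (584 * 2 ^ I)
      * (N0 a d1 d2 ^ 2 * (2 * a * κ + 2) * V)) ^ 2 = ((M * V ^ 2 : ℕ) : ℤ) := by
      rw [hM]
      push_cast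
      rw [hC0, hCz, show 1168 * 2 ^ I = 584 * 2 ^ I * 2 by ring, pow_mul]
      ring
    rw [h1]
    exact_mod_cast hVX) hTb
  set S : ℝ := ((TS a b c D I X E (E a.toNat)).card : ℝ) with hS
  have hS0 : 0 ≤ S := Nat.cast_nonneg _
  have h0 : (V : ℝ) ^ 2 ≤ 2 ^ (584 * 2 ^ I) * (3 * (T * S)) := by
    refine hcount.trans ?_
    apply mul_le_mul_of_nonneg_left _ (by positivity)
    rw [hS]
    exact_mod_cast hmain
  have h1 : (X : ℝ) ≤ 4 * ((C0 : ℝ) * 2 ^ (1168 * 2 ^ I) * (V : ℝ) ^ 2) := by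
    have : ((X : ℕ) : ℝ) ≤ ((4 * (M * V ^ 2) : ℕ) : ℝ) := by exact_mod_cast hX4M
    rw [hM] at this
    push_cast at this
    exact this
  set K : ℝ := 2 ^ (584 * 2 ^ I) with hK
  have hK0 : 0 < K := by rw [hK]; positivity
  have hKK : (2 : ℝ) ^ (1168 * 2 ^ I) = K ^ 2 := by
    rw [hK, ← pow_mul, show 584 * 2 ^ I * 2 = 1168 * 2 ^ I by ring]
  have h2 : (X : ℝ) ≤ 12 * C0 * (K ^ 3 * (T * S)) := by
    rw [hKK] at h1
    refine h1.trans ?_
    calc 4 * ((C0 : ℝ) * K ^ 2 * (V : ℝ) ^ 2) ≤ 4 * ((C0 : ℝ) * K ^ 2 * (K * (3 * (T * S)))) := by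
          have : (0 : ℝ) ≤ (C0 : ℝ) * K ^ 2 := by positivity
          nlinarith [mul_le_mul_of_nonneg_left h0 this]
      _ = 12 * C0 * (K ^ 3 * (T * S)) := by ring
  have h3 : (X : ℝ) ≤ 12 * C0 * (((X : ℝ) ^ η) ^ 3 * (C * (X : ℝ) ^ η * S)) := by
    refine h2.trans ?_
    apply mul_le_mul_of_nonneg_left _ (by positivity)
    apply mul_le_mul (pow_le_pow_left₀ hK0.le hI1 3) _ (by positivity) (by positivity)
    exact mul_le_mul_of_nonneg_right hTle hS0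
  have h4 : ((X : ℝ) ^ η) ^ 3 * (X : ℝ) ^ η = (X : ℝ) ^ (4 * η) := by
    rw [← pow_succ, ← Real.rpow_natCast, ← Real.rpow_mul hX0.le]
    congr 1
    push_cast
    ring
  have h5 : (X : ℝ) ≤ (12 * C0 * C) * ((X : ℝ) ^ (4 * η) * S) := by
    rw [← h4]
    calc (X : ℝ) ≤ 12 * C0 * (((X : ℝ) ^ η) ^ 3 * (C * (X : ℝ) ^ η * S)) := h3
      _ = (12 * C0 * C) * (((X : ℝ) ^ η) ^ 3 * (X : ℝ) ^ η * S) := by ring
  have h6 : (X : ℝ) ≤ (X : ℝ) ^ (ε - 4 * η) * ((X : ℝ) ^ (4 * η) * S) :=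
    h5.trans (mul_le_mul_of_nonneg_right hX5 (by positivity))
  rw [← mul_assoc, ← Real.rpow_add hX0, show ε - 4 * η + 4 * η = ε by ring] at h6
  rw [Real.rpow_sub hX0, Real.rpow_one, div_le_iff₀ (by positivity), mul_comm]
  exact h6

end Pool.Agent.H359R6
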