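import Pool.Agent.H359R6.Base

/-!
The finite version: counting values with the right parity.
-/

set_option autoImplicit false

namespace Pool.Agent.H359R6

open Finset Pool.Agent.H505R2

/-- all prime factors are large -/
def Lg6 (I m : ℕ) : Prop := ∀ p : ℕ, p.Prime → p ∣ m → 2 ^ 2 ^ I < p

lemma Lg6.mul {I m n : ℕ} (hm : Lg6 I m) (hn : Lg6 I n) : Lg6 I (m * n) := by
  intro p hp hd
  rcases (Nat.Prime.dvd_mul hp).1 hd with h | h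
  · exact hm p hp h
  · exact hn p hp h

lemma lg6_of {I : ℕ} {N n : ℤ} (h6 : (6 : ℤ) ∣ N) (h0 : 0 < n) (h : SN I N n)
    (hco : IsCoprime n N) : Lg6 I n.toNat := by
  intro p hp hpd
  have hpd' : (p : ℤ) ∣ n := by
    have h1 : ((n.toNat : ℕ) : ℤ) = n := Int.toNat_of_nonneg h0.le
    rw [← h1]
    exact_mod_cast hpd
  have hpZ : Prime (p : ℤ) := Nat.prime_iff_prime_int.1 hp
  have hpN : ¬ (p : ℤ) ∣ N := fun hd => hpZ.not_isUnit (hco.isUnit_of_dvd' hpd' hd)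
  by_contra hcon
  push Not at hcon
  by_cases h5 : 5 ≤ p
  · exact h p (mem_SI.2 ⟨h5, hcon, hp⟩) hpN hpd'
  · have := hp.two_le
    push Not at h5
    interval_cases p
    · exact hpN ((by norm_num : ((2 : ℕ) : ℤ) ∣ 6).trans h6)
    · exact hpN ((by norm_num : ((3 : ℕ) : ℤ) ∣ 6).trans h6)
    · revert hp; norm_num

/-- additive functions -/
def AddF (E : ℕ → ℕ) : Prop := ∀ m n : ℕ, m ≠ 0 → n ≠ 0 → E (m * n) = E m + E n

open Classical in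
/-- integers `m ≤ X` with `f(m) = d u`, `u` free of small primes, with given parity -/
noncomputable def TS (a b c : ℤ) (D : Finset ℕ) (I X : ℕ) (E : ℕ → ℕ) (e : ℕ) : Finset ℕ :=
  (range (X + 1)).filter (fun m : ℕ => ∃ d ∈ D, ∃ u : ℕ, fv a b c (m : ℤ) = ((d * u : ℕ) : ℤ) ∧
    0 < u ∧ Lg6 I u ∧ E (d * u) % 2 = e % 2)

theorem count_fiber {α : Type} (G : Finset α) (φ q : α → ℕ) (S : Finset ℕ) (Fm : ℕ → ℕ)
    (T : ℕ) (hφ : ∀ w ∈ G, φ w ∈ S) (hq : ∀ w ∈ G, q w ∈ (Fm (φ w)).divisors)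
    (hinj : ∀ w ∈ G, ∀ w' ∈ G, φ w = φ w' → q w = q w' → w = w')
    (hT : ∀ m ∈ S, (Fm m).divisors.card ≤ T) : G.card ≤ T * S.card := by
  classical
  apply Finset.card_le_mul_card_image_of_maps_to hφ
  intro m hm
  refine le_trans ?_ (hT m hm)
  apply Finset.card_le_card_of_injOn q
  · intro w hw
    rw [mem_coe, mem_filter] at hw
    have := hq w hw.1
    rw [hw.2] at this
    exact this
  · intro w hw w' hw' h
    rw [mem_coe, mem_filter] at hw hw'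
    exact hinj w hw.1 w' hw'.1 (hw.2.trans hw'.2.symm) h

variable {a b c n0 d1 e1 d2 e2 : ℤ}

/-- a triple -/
structure Tr (a b c d1 d2 κ R : ℤ) (I : ℕ) (g1 g2 x1 x2 m u v : ℤ) : Prop where
  ha : 1 ≤ a
  cd : IsCoprime d1 a
  hd1 : 1 ≤ d1
  hd2 : 1 ≤ d2
  hκ : 2 * (|b| + |c|) + 3 ≤ κ
  hg1 : 0 < g1
  hg2 : 0 ≤ g2
  hg : 2 * a * κ * g2 ≤ g1
  det : x2 * g1 - a * x1 * g2 = 1
  hm : a * m = a * x1 * (x1 - g1) + b * x2 * (x1 - g1) + c * x2 * (x2 - a * g2)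
  hF1 : Ff a b c x1 x2 = d1 * v
  hF2 : Ff a b c (x1 - g1) (x2 - a * g2) = d2 * u
  cg : IsCoprime (Qf a b c g1 g2) (N0 a d1 d2)
  cv : IsCoprime v (N0 a d1 d2)
  cu : IsCoprime u (N0 a d1 d2)
  Sg : SN I (N0 a d1 d2) (Qf a b c g1 g2)
  Sv : SN I (N0 a d1 d2) v
  Su : SN I (N0 a d1 d2) u
  lo : 2 * κ * g1 ≤ x1 - g1
  hi : x1 ≤ R * g1

lemma cone_of_det {κ g1 g2 x1 x2 : ℤ} (ha : 1 ≤ a) (hκ : 1 ≤ κ) (hg1 : 0 < g1) (hg2 : 0 ≤ g2)
    (hg : 2 * a * κ * g2 ≤ g1) (det : x2 * g1 - a * x1 * g2 = 1) (hx : 2 * κ ≤ x1) :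
    0 < x2 ∧ κ * x2 ≤ x1 := by
  have hx1 : 0 < x1 := by linarith
  have h1 : 0 < x2 * g1 := by
    have : 0 ≤ a * x1 * g2 := by positivity
    linarith
  have h2 : 0 < x2 := by
    by_contra hcon
    push Not at hcon
    nlinarith
  refine ⟨h2, ?_⟩
  have h3 : 2 * (κ * x2) * g1 ≤ 2 * x1 * g1 := by
    have h4 : 2 * (κ * x2) * g1 = 2 * κ + x1 * (2 * a * κ * g2) := by
      linear_combination (2 * κ) * det
    rw [h4]
    have h5 : x1 * (2 * a * κ * g2) ≤ x1 * g1 := mul_le_mul_of_nonneg_left hg hx1.le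
    have h6 : 2 * κ ≤ x1 * g1 := by nlinarith
    linarith
  have h7 := le_of_mul_le_mul_right h3 hg1
  linarith

section
variable {κ R g1 g2 x1 x2 m u v : ℤ} {I : ℕ}

lemma Tr.cones (t : Tr a b c d1 d2 κ R I g1 g2 x1 x2 m u v) :
    (0 < x1 ∧ 0 < x2 ∧ κ * x2 ≤ x1) ∧ (0 < x1 - g1 ∧ 0 < x2 - a * g2 ∧
      κ * (x2 - a * g2) ≤ x1 - g1) ∧ κ * g2 ≤ g1 := by
  have hκ1 : 3 ≤ κ := by
    have := t.hκ; have := abs_nonneg b; have := abs_nonneg c; linarith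
  have ha := t.ha
  have hg1 := t.hg1
  have hlo := t.lo
  have h1 : 2 * κ ≤ x1 - g1 := by nlinarith
  have hx := cone_of_det ha (by linarith) hg1 t.hg2 t.hg t.det (by linarith : 2 * κ ≤ x1)
  have hy := cone_of_det (x1 := x1 - g1) (x2 := x2 - a * g2) ha (by linarith) hg1 t.hg2 t.hg
    (by linear_combination t.det) h1
  refine ⟨⟨by linarith, hx.1, hx.2⟩, ⟨by linarith, hy.1, hy.2⟩, ?_⟩
  have h2 := t.hg
  have h3 := t.hg2
  have h4 : κ * g2 ≤ 2 * a * κ * g2 := by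
    have : 0 ≤ κ * g2 := by positivity
    nlinarith
  linarith

lemma Tr.det2 (t : Tr a b c d1 d2 κ R I g1 g2 x1 x2 m u v) :
    (x2 - a * g2) * g1 - a * (x1 - g1) * g2 = 1 := by linear_combination t.det

lemma Tr.det3 (t : Tr a b c d1 d2 κ R I g1 g2 x1 x2 m u v) :
    x1 * (x2 - a * g2) - x2 * (x1 - g1) = 1 := by linear_combination t.det

lemma Tr.Qsize (t : Tr a b c d1 d2 κ R I g1 g2 x1 x2 m u v) :
    g1 ^ 2 ≤ 2 * Qf a b c g1 g2 := by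
  have ha := t.ha
  have hκ := t.hκ
  have hb := abs_nonneg b
  have hc := abs_nonneg c
  apply Q_cone t.hg1 t.hg2 (κ := 2 * a * κ) _ _ t.hg
  · rw [abs_mul, abs_of_pos (by linarith : 0 < a)]
    have h1 : |b| ≤ a * |b| := by nlinarith
    nlinarith
  · nlinarith

lemma Tr.Fsize (t : Tr a b c d1 d2 κ R I g1 g2 x1 x2 m u v) :
    x1 ^ 2 ≤ 2 * Ff a b c x1 x2 ∧ (x1 - g1) ^ 2 ≤ 2 * Ff a b c (x1 - g1) (x2 - a * g2) := by
  have hκ := t.hκ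
  have hb := abs_nonneg b
  have hc := abs_nonneg c
  obtain ⟨⟨h1, h2, h3⟩, ⟨h4, h5, h6⟩, h7⟩ := t.cones
  exact ⟨F_cone t.ha h1 h2.le (by linarith) (by linarith) h3,
    F_cone t.ha h4 h5.le (by linarith) (by linarith) h6⟩

lemma Tr.pos (t : Tr a b c d1 d2 κ R I g1 g2 x1 x2 m u v) :
    0 < Qf a b c g1 g2 ∧ 0 < v ∧ 0 < u := by
  have h1 := t.Qsize
  have h2 := t.Fsize
  have hg1 := t.hg1
  have hd1 := t.hd1
  have hd2 := t.hd2
  obtain ⟨⟨h3, -, -⟩, ⟨h4, -, -⟩, -⟩ := t.cones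
  refine ⟨by nlinarith, ?_, ?_⟩
  · have h5 := h2.1
    rw [t.hF1] at h5
    have h6 : 0 < d1 * v := by nlinarith
    exact (mul_pos_iff_of_pos_left (by linarith)).1 h6
  · have h5 := h2.2
    rw [t.hF2] at h5
    have h6 : 0 < d2 * u := by nlinarith
    exact (mul_pos_iff_of_pos_left (by linarith)).1 h6

lemma Tr.vals (t : Tr a b c d1 d2 κ R I g1 g2 x1 x2 m u v) :
    fv a b c (mA b c g1 g2 x1 x2) = d1 * (Qf a b c g1 g2 * v) ∧
    fv a b c (mA b c g1 g2 (x1 - g1) (x2 - a * g2)) = d2 * (Qf a b c g1 g2 * u) ∧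
    a * fv a b c m = d1 * v * (d2 * u) := by
  refine ⟨?_, ?_, ?_⟩
  · rw [← id1 t.det, t.hF1]; ring
  · rw [← id1 t.det2, t.hF2]; ring
  · rw [← id3 t.det3 t.hm, t.hF1, t.hF2]

lemma Tr.sizes (t : Tr a b c d1 d2 κ R I g1 g2 x1 x2 m u v) :
    (0 < mA b c g1 g2 x1 x2 ∧ mA b c g1 g2 x1 x2 ≤ (1 + |b| + |c|) * (R * g1) ^ 2) ∧
    (0 < mA b c g1 g2 (x1 - g1) (x2 - a * g2) ∧
      mA b c g1 g2 (x1 - g1) (x2 - a * g2) ≤ (1 + |b| + |c|) * (R * g1) ^ 2) ∧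
    (0 < m ∧ m ≤ (1 + |b| + |c|) * (R * g1) ^ 2) := by
  have hκ := t.hκ
  have hb := abs_nonneg b
  have hc := abs_nonneg c
  have hg1 := t.hg1
  have hg2 := t.hg2
  have hhi := t.hi
  obtain ⟨⟨h1, h2, h3⟩, ⟨h4, h5, h6⟩, h7⟩ := t.cones
  have hxx : x2 ≤ x1 := by nlinarith
  have hyy : x2 - a * g2 ≤ x1 - g1 := by nlinarith
  have hgg : g2 ≤ g1 := by nlinarith
  have A1 := mA_cone (b := b) (c := c) hg1 hg2 (by linarith : 2 * (|b| + |c|) ≤ κ) h7 h1 h2.le hxx hgg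
  have A2 := mA_cone (b := b) (c := c) hg1 hg2 (by linarith : 2 * (|b| + |c|) ≤ κ) h7 h4 h5.le hyy hgg
  have A3 := m3_cone t.ha h1 h2.le (by linarith : 2 * (|b| + |c|) ≤ κ) h3 hxx h4 h5.le hyy t.hm
  have hC : 0 ≤ 1 + |b| + |c| := by linarith
  have B0 : g1 ≤ x1 := by linarith
  have B1 : x1 * g1 ≤ (R * g1) ^ 2 := by nlinarith
  have B2 : (x1 - g1) * g1 ≤ (R * g1) ^ 2 := by nlinarith
  have B3 : x1 * (x1 - g1) ≤ (R * g1) ^ 2 := by nlinarith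
  exact ⟨⟨A1.1, A1.2.trans (mul_le_mul_of_nonneg_left B1 hC)⟩,
    ⟨A2.1, A2.2.trans (mul_le_mul_of_nonneg_left B2 hC)⟩,
    ⟨A3.1, A3.2.trans (mul_le_mul_of_nonneg_left B3 hC)⟩⟩

end

end Pool.Agent.H359R6
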