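import Pool.Agent.H359R6.Sift

/-!
Choice of the base point.
-/

set_option autoImplicit false

namespace Pool.Agent.H359R6

variable {a b c : ℤ}

lemma fv_pos {n : ℤ} (ha : 1 ≤ a) (hn : |b| + |c| < n) : 0 < fv a b c n := by
  unfold fv
  have hb := abs_nonneg b
  have hc := abs_nonneg c
  have hn0 : 1 ≤ n := by linarith
  have h1 := neg_abs_le b
  have h2 := neg_abs_le c
  have h3 : -(|b| * n) ≤ b * n := by nlinarith
  have h4 : n ^ 2 ≤ a * n ^ 2 := by nlinarith [sq_nonneg n]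
  have h5 : 0 < n * (n - |b| - |c|) := by
    apply mul_pos <;> linarith
  have h6 : |c| * 1 ≤ |c| * n := mul_le_mul_of_nonneg_left hn0 hc
  nlinarith

/-- two consecutive non-roots modulo 3 -/
lemma mod3 : ∀ a b c r : ZMod 3, a ≠ 0 → b ^ 2 - 4 * a * c - 1 ≠ 0 →
    ∃ s : ZMod 3, a * (r + s) ^ 2 + b * (r + s) + c ≠ 0 ∧
      a * (r + s + 1) ^ 2 + b * (r + s + 1) + c ≠ 0 := by decide

theorem exists_base (ha : 1 ≤ a) (hab : IsCoprime a b) :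
    ∃ n0 k2 : ℤ, fv a b c n0 = a * k2 ∧ 0 < fv a b c (n0 + 1) ∧ 0 < k2 ∧
      IsCoprime (fv a b c (n0 + 1)) a ∧ IsCoprime k2 a ∧
      ((2 : ℤ) ∣ a ∨ (¬ (2 : ℤ) ∣ b ∧ ¬ (2 : ℤ) ∣ c) →
        ¬ (2 : ℤ) ∣ fv a b c (n0 + 1) ∧ ¬ (2 : ℤ) ∣ k2) ∧
      ((3 : ℤ) ∣ a ∨ ¬ (3 : ℤ) ∣ b ^ 2 - 4 * a * c - 1 →
        ¬ (3 : ℤ) ∣ fv a b c (n0 + 1) ∧ ¬ (3 : ℤ) ∣ k2) := by
  obtain ⟨a', b', hab'⟩ := hab
  -- a' * a + b' * b = 1
  obtain ⟨r0, hr0⟩ : ∃ r0 : ℤ, r0 = -c * b' := ⟨_, rfl⟩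
  obtain ⟨k, hk⟩ : ∃ k : ℤ, k = r0 ^ 2 + c * a' := ⟨_, rfl⟩
  obtain ⟨j, hj⟩ : ∃ j : ℤ, j = (1 - k) * b' := ⟨_, rfl⟩
  obtain ⟨r, hr⟩ : ∃ r : ℤ, r = r0 + a * j := ⟨_, rfl⟩
  -- choice of s
  obtain ⟨s, hs0, hs2, hs⟩ : ∃ s : ℤ, 0 ≤ s ∧ s ≤ 2 ∧ ((¬ (3 : ℤ) ∣ a) →
      ¬ (3 : ℤ) ∣ b ^ 2 - 4 * a * c - 1 → ¬ (3 : ℤ) ∣ fv a b c (r + a ^ 2 * s) ∧
      ¬ (3 : ℤ) ∣ fv a b c (r + a ^ 2 * s + 1)) := by
    by_cases h3a : (3 : ℤ) ∣ a
    · exact ⟨0, le_rfl, by norm_num, fun h => absurd h3a h⟩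
    by_cases h3D : (3 : ℤ) ∣ b ^ 2 - 4 * a * c - 1
    · exact ⟨0, le_rfl, by norm_num, fun _ h => absurd h3D h⟩
    have e : ∀ x : ℤ, (3 : ℤ) ∣ x ↔ ((x : ℤ) : ZMod 3) = 0 := fun x =>
      (ZMod.intCast_zmod_eq_zero_iff_dvd x 3).symm
    obtain ⟨s, h1, h2⟩ := mod3 (a : ZMod 3) (b : ZMod 3) (c : ZMod 3) (r : ZMod 3)
      (by rw [Ne, ← e]; exact h3a) (by
        rw [Ne]; intro h; apply h3D; rw [e]; push_cast; exact h)
    have ha2 : ((a : ℤ) : ZMod 3) ^ 2 = 1 := by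
      have : ∀ x : ZMod 3, x ≠ 0 → x ^ 2 = 1 := by decide
      apply this
      rw [Ne, ← e]; exact h3a
    have hsv : ((s.val : ℕ) : ZMod 3) = s := ZMod.natCast_zmod_val s
    have hlt := ZMod.val_lt s
    refine ⟨(s.val : ℤ), by positivity, by omega, fun _ _ => ⟨?_, ?_⟩⟩
    · rw [e]; unfold fv; push_cast; rw [ha2, hsv, one_mul]; exact h1
    · rw [e]; unfold fv; push_cast; rw [ha2, hsv, one_mul]; exact h2
  obtain ⟨t, ht⟩ : ∃ t : ℤ, t = |b| + |c| + |r| + 1 := ⟨_, rfl⟩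
  have ht0 : 0 ≤ t := by rw [ht]; positivity
  obtain ⟨w, hw⟩ : ∃ w : ℤ, w = 3 * t + s := ⟨_, rfl⟩
  obtain ⟨n0, hn0⟩ : ∃ n0 : ℤ, n0 = r + a ^ 2 * w := ⟨_, rfl⟩
  have hn0big : |b| + |c| < n0 := by
    have h1 := neg_abs_le r
    have h2 : t ≤ w := by rw [hw]; linarith
    have h3 : w ≤ a ^ 2 * w := by
      have : 1 ≤ a ^ 2 := by nlinarith
      nlinarith
    rw [hn0]
    linarith
  obtain ⟨kr, hkr⟩ : ∃ kr : ℤ, kr = k + 2 * a * r0 * j + a ^ 2 * j ^ 2 + b * j := ⟨_, rfl⟩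
  obtain ⟨k2, hk2⟩ : ∃ k2 : ℤ, k2 = kr + 2 * r * a ^ 2 * w + a ^ 4 * w ^ 2 + b * a * w := ⟨_, rfl⟩
  have hf0 : fv a b c r0 = a * k := by
    unfold fv; rw [hk, hr0]; linear_combination (-c) * hab'
  have hfr : fv a b c r = a * kr := by
    have : fv a b c r = fv a b c r0 + a * (2 * a * r0 * j + a ^ 2 * j ^ 2 + b * j) := by
      unfold fv; rw [hr]; ring
    rw [this, hf0, hkr]; ring
  have hfn : fv a b c n0 = a * k2 := by
    have : fv a b c n0 = fv a b c r + a * (2 * r * a ^ 2 * w + a ^ 4 * w ^ 2 + b * a * w) := by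
      unfold fv; rw [hn0]; ring
    rw [this, hfr, hk2]; ring
  have hpos0 : 0 < fv a b c n0 := fv_pos ha hn0big
  have hpos1 : 0 < fv a b c (n0 + 1) := fv_pos ha (by linarith)
  have hk2pos : 0 < k2 := by
    rw [hfn] at hpos0
    exact (mul_pos_iff_of_pos_left (by linarith)).1 hpos0
  have hc1 : IsCoprime (fv a b c (n0 + 1)) a := by
    have h1 : fv a b c (n0 + 1) = a * (k2 + 2 * n0 + 1) + b := by
      have h2 : fv a b c (n0 + 1) = fv a b c n0 + a * (2 * n0 + 1) + b := by unfold fv; ring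
      rw [h2, hfn]; ring
    refine ⟨b', a' - b' * (k2 + 2 * n0 + 1), ?_⟩
    rw [h1]; linear_combination hab'
  have hc2 : IsCoprime k2 a := by
    refine ⟨1, -(2 * r0 * j + a * j ^ 2 - a' * (1 - k) + 2 * r * a * w + a ^ 3 * w ^ 2 + b * w), ?_⟩
    rw [hk2, hkr, hj]
    linear_combination (1 - k) * hab'
  refine ⟨n0, k2, hfn, hpos1, hk2pos, hc1, hc2, ?_, ?_⟩
  · rintro (h | ⟨h1, h2⟩)
    · constructor
      · intro hd
        exact Int.prime_two.not_isUnit (hc1.isUnit_of_dvd' hd h)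
      · intro hd
        exact Int.prime_two.not_isUnit (hc2.isUnit_of_dvd' hd h)
    · by_cases h2a : (2 : ℤ) ∣ a
      · constructor
        · intro hd
          exact Int.prime_two.not_isUnit (hc1.isUnit_of_dvd' hd h2a)
        · intro hd
          exact Int.prime_two.not_isUnit (hc2.isUnit_of_dvd' hd h2a)
      · have hodd : ∀ n : ℤ, ¬ (2 : ℤ) ∣ fv a b c n := by
          intro n hd
          have ea : a % 2 = 1 := by omega
          have eb : b % 2 = 1 := by omega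
          have ec : c % 2 = 1 := by omega
          have h3 : fv a b c n % 2 = 0 := by omega
          unfold fv at h3
          rcases Int.emod_two_eq_zero_or_one n with hn | hn
          · rw [Int.add_emod, Int.add_emod (a * n ^ 2), Int.mul_emod, Int.mul_emod b, pow_two,
              Int.mul_emod n n, ea, eb, ec, hn] at h3
            norm_num at h3
          · rw [Int.add_emod, Int.add_emod (a * n ^ 2), Int.mul_emod, Int.mul_emod b, pow_two,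
              Int.mul_emod n n, ea, eb, ec, hn] at h3
            norm_num at h3
        refine ⟨hodd _, fun hd => hodd n0 ?_⟩
        rw [hfn]; exact hd.mul_left a
  · intro h
    by_cases h3a : (3 : ℤ) ∣ a
    · constructor
      · intro hd
        exact Int.prime_three.not_isUnit (hc1.isUnit_of_dvd' hd h3a)
      · intro hd
        exact Int.prime_three.not_isUnit (hc2.isUnit_of_dvd' hd h3a)
    · obtain ⟨g1, g2⟩ := hs h3a (h.resolve_left h3a)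
      have e1 : (3 : ℤ) ∣ fv a b c (n0 + 1) - fv a b c (r + a ^ 2 * s + 1) := by
        refine ⟨a ^ 2 * t * (a * (n0 + 1 + (r + a ^ 2 * s + 1)) + b), ?_⟩
        rw [hn0, hw]; unfold fv; ring
      have e0 : (3 : ℤ) ∣ fv a b c n0 - fv a b c (r + a ^ 2 * s) := by
        refine ⟨a ^ 2 * t * (a * (n0 + (r + a ^ 2 * s)) + b), ?_⟩
        rw [hn0, hw]; unfold fv; ring
      constructor
      · intro hd
        exact g2 ((dvd_sub_right hd).1 e1)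
      · intro hd
        apply g1
        have : (3 : ℤ) ∣ fv a b c n0 := by rw [hfn]; exact hd.mul_left a
        exact (dvd_sub_right this).1 e0

/-- splitting off the primes 2 and 3 -/
theorem split6 : ∀ N : ℕ, ∀ k : ℤ, 0 < k → k.toNat ≤ N → ∃ d e : ℤ, ∃ j : ℕ, k = d * e ∧ 1 ≤ d ∧
    0 < e ∧ d ∣ 6 ^ j ∧ ¬ (2 : ℤ) ∣ e ∧ ¬ (3 : ℤ) ∣ e := by
  intro N
  induction N with
  | zero => intro k hk h; omega
  | succ N ih =>
    intro k hk h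
    by_cases h2 : (2 : ℤ) ∣ k
    · obtain ⟨l, hl⟩ := h2
      obtain ⟨d, e, j, h1, h2, h3, h4, h5, h6⟩ := ih l (by omega) (by omega)
      refine ⟨2 * d, e, j + 1, by rw [hl, h1]; ring, by linarith, h3, ?_, h5, h6⟩
      rw [pow_succ', show (6 : ℤ) = 2 * 3 by norm_num]
      have : (2 : ℤ) * 3 * (2 * 3) ^ j = 2 * (3 * (2 * 3) ^ j) := by ring
      rw [this]
      apply mul_dvd_mul_left
      rw [show (2 : ℤ) * 3 = 6 by norm_num]
      exact h4.mul_left 3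
    · by_cases h3 : (3 : ℤ) ∣ k
      · obtain ⟨l, hl⟩ := h3
        obtain ⟨d, e, j, h1, h2, h3, h4, h5, h6⟩ := ih l (by omega) (by omega)
        refine ⟨3 * d, e, j + 1, by rw [hl, h1]; ring, by linarith, h3, ?_, h5, h6⟩
        rw [pow_succ', show (6 : ℤ) = 3 * 2 by norm_num]
        have : (3 : ℤ) * 2 * (3 * 2) ^ j = 3 * (2 * (3 * 2) ^ j) := by ring
        rw [this]
        apply mul_dvd_mul_left
        rw [show (3 : ℤ) * 2 = 6 by norm_num]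
        exact h4.mul_left 2
      · exact ⟨1, k, 0, by ring, le_rfl, hk, one_dvd _, h2, h3⟩

lemma cop6 {e : ℤ} (h2 : ¬ (2 : ℤ) ∣ e) (h3 : ¬ (3 : ℤ) ∣ e) : IsCoprime e 6 := by
  have e2 : IsCoprime e 2 := (Int.prime_two.coprime_iff_not_dvd.2 h2).symm
  have e3 : IsCoprime e 3 := (Int.prime_three.coprime_iff_not_dvd.2 h3).symm
  have := e2.mul_right e3
  norm_num at this
  exact this

/-- splitting, with `d = 1` if possible -/
theorem split6' {k : ℤ} (hk : 0 < k) : ∃ d e : ℤ, ∃ j : ℕ, k = d * e ∧ 1 ≤ d ∧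
    d ∣ 6 ^ j ∧ IsCoprime e 6 ∧ (¬ (2 : ℤ) ∣ k → ¬ (3 : ℤ) ∣ k → d = 1) := by
  by_cases h : ¬ (2 : ℤ) ∣ k ∧ ¬ (3 : ℤ) ∣ k
  · exact ⟨1, k, 0, by ring, le_rfl, one_dvd _, cop6 h.1 h.2, fun _ _ => rfl⟩
  · obtain ⟨d, e, j, h1, h2, h3, h4, h5, h6⟩ := split6 k.toNat k hk le_rfl
    exact ⟨d, e, j, h1, h2, h4, cop6 h5 h6, fun h7 h8 => absurd ⟨h7, h8⟩ h⟩

lemma cop_pow {e d : ℤ} {j : ℕ} (h : IsCoprime e 6) (hd : d ∣ 6 ^ j) : IsCoprime e d :=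
  (h.pow_right (n := j)).of_isCoprime_of_dvd_right hd

theorem exists_Loc (ha : 1 ≤ a) (hab : IsCoprime a b) :
    ∃ n0 d1 e1 d2 e2 : ℤ, ∃ j : ℕ, Loc a b c n0 d1 e1 (a * d2) e2 ∧ 1 ≤ d2 ∧ d1 ∣ 6 ^ j ∧
      d2 ∣ 6 ^ j ∧
      (((2 : ℤ) ∣ a ∨ (¬ (2 : ℤ) ∣ b ∧ ¬ (2 : ℤ) ∣ c)) →
        ((3 : ℤ) ∣ a ∨ ¬ (3 : ℤ) ∣ b ^ 2 - 4 * a * c - 1) → d1 = 1 ∧ d2 = 1) := by
  obtain ⟨n0, k2, h1, h2, h3, h4, h5, h6, h7⟩ := exists_base (c := c) ha hab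
  obtain ⟨d1, e1, j1, f1, f2, f3, f4, f5⟩ := split6' h2
  obtain ⟨d2, e2, j2, g1, g2, g3, g4, g5⟩ := split6' h3
  have hd1j : d1 ∣ 6 ^ (j1 + j2) := f3.trans (pow_dvd_pow 6 (by omega))
  have hd2j : d2 ∣ 6 ^ (j1 + j2) := g3.trans (pow_dvd_pow 6 (by omega))
  have he1a : IsCoprime e1 a := by rw [f1] at h4; exact h4.of_mul_left_right
  have he2a : IsCoprime e2 a := by rw [g1] at h5; exact h5.of_mul_left_right
  have comb : ∀ e : ℤ, IsCoprime e 6 → IsCoprime e a → IsCoprime e (6 * a * d1 * (a * d2)) :=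
    fun e h h' => ((h.mul_right h').mul_right (cop_pow h hd1j)).mul_right
      (h'.mul_right (cop_pow h hd2j))
  refine ⟨n0, d1, e1, d2, e2, j1 + j2, ⟨ha, hab, f2, by nlinarith, f1, ?_, Dvd.intro _ rfl,
    comb e1 f4 he1a, comb e2 g4 he2a⟩, g2, hd1j, hd2j, ?_⟩
  · rw [h1, g1]; ring
  · intro c2 c3
    obtain ⟨i1, i2⟩ := h6 c2
    obtain ⟨i3, i4⟩ := h7 c3
    exact ⟨f5 i1 i3, g5 i2 i4⟩

end Pool.Agent.H359R6
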