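import Pool.Agent.H505R2.Out
import Pool.Agent.H359R6.Core
import Pool.Agent.H359R6.Local

/-!
Final form.
-/

set_option autoImplicit false

namespace Pool.Agent.H359R6

open Finset Filter Pool.Agent.H505R2

open Classical in
lemma addF_count (P : Set ℕ) :
    AddF (fun n => n.primeFactorsList.countP (fun p => decide (p ∈ P))) := by
  intro m n hm hn
  have h3 := (Nat.perm_primeFactorsList_mul hm hn).countP_eq (fun p => decide (p ∈ P))
  rw [List.countP_append] at h3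
  exact h3

/-- the set counted in the final theorem -/
def FS (a b c : ℤ) (D : Finset ℕ) (δ : ℝ) (R X : ℕ) (E : ℕ → ℕ) (e : ℕ) : Set ℕ :=
  {m : ℕ | m ≤ X ∧ ∃ d ∈ D, ∃ u : ℕ, a * (m : ℤ) ^ 2 + b * m + c = d * u ∧ 0 < u ∧
    (∀ p : ℕ, p.Prime → p ∣ u → (X : ℝ) ^ δ < p) ∧
    (d * u).primeFactorsList.length ≤ R ∧ E (d * u) % 2 = e % 2}

lemma ts_le {a b c : ℤ} (ha : 1 ≤ a) {D : Finset ℕ} (hD : ∀ d ∈ D, 0 < d) {δ : ℝ} (hδ : 0 < δ)
    {I X : ℕ} {E : ℕ → ℕ} {e : ℕ} (hX : 2 ≤ X) (hX2 : (a + |b| + |c|).toNat ≤ X)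
    (hI : (X : ℝ) ^ δ < 2 ^ 2 ^ I) :
    ((TS a b c D I X E e).card : ℝ) ≤ ((FS a b c D δ (∑ d ∈ D, d.primeFactorsList.length
      + ⌈3 / δ⌉₊) X E e).ncard : ℝ) := by
  classical
  rw [← Set.ncard_coe_finset]
  have hsub : ((TS a b c D I X E e : Finset ℕ) : Set ℕ) ⊆ FS a b c D δ
      (∑ d ∈ D, d.primeFactorsList.length + ⌈3 / δ⌉₊) X E e := by
    intro m hm
    rw [mem_coe, TS, mem_filter, mem_range] at hm
    obtain ⟨hmX, d, hd, u, h1, h2, h3, h4⟩ := hm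
    have hlarge : ∀ p : ℕ, p.Prime → p ∣ u → (X : ℝ) ^ δ < p := by
      intro p hp hdu
      have h5 := h3 p hp hdu
      have h6 : ((2 ^ 2 ^ I : ℕ) : ℝ) < p := by exact_mod_cast h5
      push_cast at h6
      exact hI.trans h6
    have hd0 := hD d hd
    have hu3 : (u : ℤ) ≤ (X : ℤ) ^ 3 := by
      have h5 : (u : ℤ) ≤ ((d * u : ℕ) : ℤ) := by
        exact_mod_cast Nat.le_mul_of_pos_left u hd0
      rw [← h1] at h5
      have h6 := fv_le (b := b) (c := c) ha (Nat.lt_succ_iff.1 hmX) (by omega : 1 ≤ X)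
      have h7 : a + |b| + |c| ≤ (X : ℤ) := by
        have := Int.self_le_toNat (a + |b| + |c|)
        have h8 : (((a + |b| + |c|).toNat : ℕ) : ℤ) ≤ (X : ℤ) := by exact_mod_cast hX2
        linarith
      calc (u : ℤ) ≤ fv a b c (m : ℤ) := h5
        _ ≤ (a + |b| + |c|) * (X : ℤ) ^ 2 := (le_abs_self _).trans h6
        _ ≤ (X : ℤ) * (X : ℤ) ^ 2 := mul_le_mul_of_nonneg_right h7 (by positivity)
        _ = (X : ℤ) ^ 3 := by ring
    have h8 : (u : ℝ) ≤ (X : ℝ) ^ 3 := by exact_mod_cast hu3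
    refine ⟨Nat.lt_succ_iff.1 hmX, d, hd, u, ?_, h2, hlarge, ?_, h4⟩
    · unfold fv at h1
      rw [h1]; push_cast; ring
    · rw [len_mul (by omega) (by omega)]
      apply Nat.add_le_add
      · exact Finset.single_le_sum (f := fun d : ℕ => d.primeFactorsList.length)
          (fun i _ => Nat.zero_le _) hd
      · exact len_le hX (by omega) h8 hδ hlarge
  exact_mod_cast Set.ncard_le_ncard hsub ((Set.finite_Iic X).subset fun _ h => h.1)

lemma prime_dvd_of_dvd_pow6 {d : ℤ} {j : ℕ} (hd : d ∣ 6 ^ j) {p : ℕ} (hp : p.Prime)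
    (h : (p : ℤ) ∣ d) : p ∣ 6 := by
  have hpZ : Prime (p : ℤ) := Nat.prime_iff_prime_int.1 hp
  have h1 := hpZ.dvd_of_dvd_pow (h.trans hd)
  exact_mod_cast h1

open Classical in
/-- main theorem -/
theorem main (a : ℕ) (b c : ℤ) (ha : 0 < a) (hab : IsCoprime (a : ℤ) b) :
    ∃ D : Finset ℕ, (∀ d ∈ D, 0 < d ∧ ∀ p : ℕ, p.Prime → p ∣ d → p ∣ 6 * a) ∧
      ((2 ∣ a ∨ (Odd b ∧ Odd c)) → (3 ∣ a ∨ ¬ (3 : ℤ) ∣ b ^ 2 - 4 * a * c - 1) → D = {1, a}) ∧
      ∀ ε : ℝ, 0 < ε → ∃ δ : ℝ, 0 < δ ∧ ∃ R X₀ : ℕ, ∀ E : ℕ → ℕ, AddF E → ∀ X : ℕ, X₀ ≤ X →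
        (X : ℝ) ^ (1 - ε) ≤ ((FS a b c D δ R X E (E a)).ncard : ℝ) := by
  have haZ : (1 : ℤ) ≤ a := by exact_mod_cast ha
  obtain ⟨n0, d1, e1, d2, e2, j, L, h2, h3, h4, h5⟩ := exists_Loc (c := c) haZ hab
  have h1 := L.hd1
  have had2 : 1 ≤ (a : ℤ) * d2 := by nlinarith
  have hdiv : d1 * (a * d2) / (a : ℤ) = d1 * d2 := by
    rw [show d1 * (a * d2) = a * (d1 * d2) by ring]
    exact Int.mul_ediv_cancel_left _ (by linarith)
  set D : Finset ℕ := {d1.toNat, ((a : ℤ) * d2).toNat, (d1 * d2).toNat} with hD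
  have hD1 : d1.toNat ∈ D := by rw [hD]; simp
  have hD2 : ((a : ℤ) * d2).toNat ∈ D := by rw [hD]; simp
  have hD3 : (d1 * (a * d2) / (a : ℤ)).toNat ∈ D := by rw [hD, hdiv]; simp
  have hd12 : 1 ≤ d1 * d2 := by nlinarith
  have hDpos : ∀ d ∈ D, 0 < d := by
    intro d hd
    rw [hD, mem_insert, mem_insert, mem_singleton] at hd
    rcases hd with rfl | rfl | rfl <;> omega
  refine ⟨D, fun d hd => ⟨hDpos d hd, ?_⟩, ?_, ?_⟩
  · intro p hp hpd
    have hpZ : Prime (p : ℤ) := Nat.prime_iff_prime_int.1 hp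
    rw [hD, mem_insert, mem_insert, mem_singleton] at hd
    rcases hd with rfl | rfl | rfl
    · have : (p : ℤ) ∣ d1 := by
        have h6 : ((d1.toNat : ℕ) : ℤ) = d1 := Int.toNat_of_nonneg (by linarith)
        rw [← h6]; exact_mod_cast hpd
      exact (prime_dvd_of_dvd_pow6 h3 hp this).mul_right a
    · have : (p : ℤ) ∣ (a : ℤ) * d2 := by
        have h6 : ((((a : ℤ) * d2).toNat : ℕ) : ℤ) = (a : ℤ) * d2 :=
          Int.toNat_of_nonneg (by linarith)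
        rw [← h6]; exact_mod_cast hpd
      rcases hpZ.dvd_or_dvd this with h | h
      · exact (Int.natCast_dvd_natCast.1 h).mul_left 6
      · exact (prime_dvd_of_dvd_pow6 h4 hp h).mul_right a
    · have : (p : ℤ) ∣ d1 * d2 := by
        have h6 : (((d1 * d2).toNat : ℕ) : ℤ) = d1 * d2 := Int.toNat_of_nonneg (by linarith)
        rw [← h6]; exact_mod_cast hpd
      rcases hpZ.dvd_or_dvd this with h | h
      · exact (prime_dvd_of_dvd_pow6 h3 hp h).mul_right a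
      · exact (prime_dvd_of_dvd_pow6 h4 hp h).mul_right a
  · intro c2 c3
    have c2' : (2 : ℤ) ∣ (a : ℤ) ∨ (¬ (2 : ℤ) ∣ b ∧ ¬ (2 : ℤ) ∣ c) := by
      rcases c2 with h | ⟨h, h'⟩
      · left; exact_mod_cast h
      · right
        rw [← Int.not_even_iff_odd, even_iff_two_dvd] at h h'
        exact ⟨h, h'⟩
    have c3' : (3 : ℤ) ∣ (a : ℤ) ∨ ¬ (3 : ℤ) ∣ b ^ 2 - 4 * a * c - 1 := by
      rcases c3 with h | h
      · left; exact_mod_cast h
      · right; exact h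
    obtain ⟨g1, g2⟩ := h5 c2' c3'
    rw [hD, g1, g2]
    simp only [mul_one, Int.toNat_natCast, Int.toNat_one]
    ext x
    simp only [mem_insert, mem_singleton]
    tauto
  · intro ε hε
    obtain ⟨δ, hδ, hev⟩ := core6 L D hD1 hD2 hD3 ε hε
    have hev2 := hev.and ((eventually_ge_atTop 2).and
      (eventually_ge_atTop ((a : ℤ) + |b| + |c|).toNat))
    rw [eventually_atTop] at hev2
    obtain ⟨X₀, hX₀⟩ := hev2
    refine ⟨δ, hδ, ∑ d ∈ D, d.primeFactorsList.length + ⌈3 / δ⌉₊, X₀, fun E hE X hX => ?_⟩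
    obtain ⟨⟨I, hI, h6⟩, hX2, hX3⟩ := hX₀ X hX
    have h7 := h6 E hE
    rw [Int.toNat_natCast] at h7
    exact h7.trans (ts_le haZ hDpos hδ hX2 hX3 hI)

end Pool.Agent.H359R6
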